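import Mathlib

/-!
Truncated incidence-type algebras attached to a Boolean relation, and their thin modules.
-/

namespace Pool.Agent.P8H62.PC

universe u

set_option linter.unusedSectionVars false

variable {V : Type} [Fintype V] [DecidableEq V]

/-- A reflexive relation on `V` for which the truncated matrix product is associative. -/
structure Rel (V : Type) where
  r : V → V → Bool
  refl : ∀ i, r i i = true
  assoc : ∀ i k l j, r i k = true → r k l = true → r l j = true → r i j = true → r i l = r k j

/-- Matrices supported on the relation `R`. -/
def carrier (R : Rel V) (K : Type u) [Field K] : Submodule K (V → V → K) where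
  carrier := {f | ∀ i j, R.r i j = false → f i j = 0}
  add_mem' := by
    intro f g hf hg i j h
    simp [hf i j h, hg i j h]
  zero_mem' := by
    intro i j _
    rfl
  smul_mem' := by
    intro c f hf i j h
    simp [hf i j h]

/-- The algebra of matrices supported on `R` with the truncated matrix product. -/
def Alg (R : Rel V) (K : Type u) [Field K] : Type u := carrier R K

variable (R : Rel V) (K : Type u) [Field K]

noncomputable instance : AddCommGroup (Alg R K) := inferInstanceAs (AddCommGroup (carrier R K))
noncomputable instance : Module K (Alg R K) := inferInstanceAs (Module K (carrier R K))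
instance : Module.Finite K (Alg R K) := inferInstanceAs (Module.Finite K (carrier R K))

variable {R K}

namespace Alg

/-- entry -/
def e (f : Alg R K) (i j : V) : K := f.1 i j

theorem ext {f g : Alg R K} (h : ∀ i j, f.e i j = g.e i j) : f = g :=
  Subtype.ext (funext fun i => funext fun j => h i j)

theorem e_eq_zero (f : Alg R K) {i j : V} (h : R.r i j = false) : f.e i j = 0 := f.2 i j h

@[simp] theorem add_e (f g : Alg R K) (i j : V) : (f + g).e i j = f.e i j + g.e i j := rfl
@[simp] theorem smul_e (c : K) (f : Alg R K) (i j : V) : (c • f).e i j = c * f.e i j := rfl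
@[simp] theorem zero_e (i j : V) : (0 : Alg R K).e i j = 0 := rfl
@[simp] theorem neg_e (f : Alg R K) (i j : V) : (-f).e i j = - f.e i j := rfl

@[simp] theorem sum_e {ι : Type} (s : Finset ι) (f : ι → Alg R K) (i j : V) :
    (∑ t ∈ s, f t).e i j = ∑ t ∈ s, (f t).e i j := by
  classical
  induction s using Finset.induction_on with
  | empty => rfl
  | insert a s ha ih => rw [Finset.sum_insert ha, Finset.sum_insert ha, add_e, ih]

noncomputable instance : Mul (Alg R K) :=
  ⟨fun f g => ⟨fun i j => if R.r i j = true then ∑ k, f.e i k * g.e k j else 0, by
    intro i j h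
    simp [h]⟩⟩

instance : One (Alg R K) :=
  ⟨⟨fun i j => if i = j then 1 else 0, by
    intro i j h
    have : i ≠ j := by
      rintro rfl
      rw [R.refl] at h
      exact absurd h (by decide)
    simp [this]⟩⟩

theorem mul_e (f g : Alg R K) (i j : V) :
    (f * g).e i j = if R.r i j = true then ∑ k, f.e i k * g.e k j else 0 := rfl

theorem one_e (i j : V) : (1 : Alg R K).e i j = if i = j then 1 else 0 := rfl

theorem mul_assoc' (f g h : Alg R K) : f * g * h = f * (g * h) := by
  apply ext
  intro i j
  rw [mul_e, mul_e]
  by_cases hij : R.r i j = true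
  · rw [if_pos hij, if_pos hij]
    have h1 : ∀ l, (f * g).e i l * h.e l j =
        ∑ k, (if R.r i l = true then f.e i k * g.e k l * h.e l j else 0) := by
      intro l
      rw [mul_e]
      by_cases hil : R.r i l = true
      · simp only [if_pos hil, Finset.sum_mul]
      · simp [if_neg hil]
    have h2 : ∀ k, f.e i k * (g * h).e k j =
        ∑ l, (if R.r k j = true then f.e i k * g.e k l * h.e l j else 0) := by
      intro k
      rw [mul_e]
      by_cases hkj : R.r k j = true
      · simp only [if_pos hkj, Finset.mul_sum, mul_assoc]
      · simp [if_neg hkj]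
    simp only [h1, h2]
    rw [Finset.sum_comm]
    refine Finset.sum_congr rfl fun k _ => Finset.sum_congr rfl fun l _ => ?_
    by_cases hik : R.r i k = true
    · by_cases hkl : R.r k l = true
      · by_cases hlj : R.r l j = true
        · rw [R.assoc i k l j hik hkl hlj hij]
        · rw [h.e_eq_zero (by simpa using hlj)]; simp
      · rw [g.e_eq_zero (by simpa using hkl)]; simp
    · rw [f.e_eq_zero (by simpa using hik)]; simp
  · rw [if_neg hij, if_neg hij]

noncomputable instance : Ring (Alg R K) where
  __ := (inferInstance : AddCommGroup (Alg R K))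
  mul := (· * ·)
  one := 1
  left_distrib := by
    intro f g h
    apply ext
    intro i j
    rw [add_e, mul_e, mul_e, mul_e]
    by_cases hij : R.r i j = true
    · simp only [if_pos hij, add_e, mul_add, Finset.sum_add_distrib]
    · simp [if_neg hij]
  right_distrib := by
    intro f g h
    apply ext
    intro i j
    rw [add_e, mul_e, mul_e, mul_e]
    by_cases hij : R.r i j = true
    · simp only [if_pos hij, add_e, add_mul, Finset.sum_add_distrib]
    · simp [if_neg hij]
  zero_mul := by
    intro f
    apply ext
    intro i j
    rw [mul_e]
    simp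
  mul_zero := by
    intro f
    apply ext
    intro i j
    rw [mul_e]
    simp
  mul_assoc := mul_assoc'
  one_mul := by
    intro f
    apply ext
    intro i j
    rw [mul_e]
    by_cases hij : R.r i j = true
    · rw [if_pos hij]
      simp [one_e]
    · rw [if_neg hij, f.e_eq_zero (by simpa using hij)]
  mul_one := by
    intro f
    apply ext
    intro i j
    rw [mul_e]
    by_cases hij : R.r i j = true
    · rw [if_pos hij]
      simp [one_e]
    · rw [if_neg hij, f.e_eq_zero (by simpa using hij)]
  neg_add_cancel := by
    intro f
    exact neg_add_cancel f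

noncomputable instance : Algebra K (Alg R K) :=
  Algebra.ofModule
    (by
      intro c f g
      apply ext
      intro i j
      rw [smul_e, mul_e, mul_e]
      by_cases hij : R.r i j = true
      · simp only [if_pos hij, smul_e, Finset.mul_sum, mul_assoc]
      · simp [if_neg hij])
    (by
      intro c f g
      apply ext
      intro i j
      rw [smul_e, mul_e, mul_e]
      by_cases hij : R.r i j = true
      · simp only [if_pos hij, smul_e, Finset.mul_sum]
        refine Finset.sum_congr rfl fun k _ => ?_
        ring
      · simp [if_neg hij])

/-- matrix unit (zero when not in the relation) -/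
def unit (R : Rel V) (K : Type u) [Field K] (x i : V) : Alg R K :=
  ⟨fun p q => if p = x ∧ q = i ∧ R.r x i = true then 1 else 0, by
    intro p q h
    refine if_neg ?_
    rintro ⟨rfl, rfl, h'⟩
    rw [h] at h'
    exact absurd h' (by decide)⟩

theorem unit_e (x i p q : V) :
    (unit R K x i).e p q = if p = x ∧ q = i ∧ R.r x i = true then 1 else 0 := rfl

theorem unit_mul (x i : V) (h : R.r x i = true) (f : Alg R K) :
    unit R K x i * f = ∑ q, f.e i q • unit R K x q := by
  apply ext
  intro p j
  rw [mul_e, sum_e]
  simp only [smul_e, unit_e, h, and_true]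
  by_cases hpj : R.r p j = true
  · rw [if_pos hpj]
    by_cases hpx : p = x
    · subst hpx
      rw [Finset.sum_eq_single i, Finset.sum_eq_single j]
      · simp [hpj]
      · intro b _ hb
        rw [if_neg, mul_zero]
        rintro ⟨_, h2, _⟩
        exact hb h2.symm
      · simp
      · intro b _ hb
        simp [hb]
      · simp
    · simp [hpx]
  · rw [if_neg hpj]
    symm
    apply Finset.sum_eq_zero
    intro q _
    rw [if_neg, mul_zero]
    rintro ⟨rfl, rfl, h'⟩
    exact hpj h'

theorem mul_unit (j k : V) (h : R.r j k = true) (f : Alg R K) :
    f * unit R K j k = ∑ p, f.e p j • unit R K p k := by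
  apply ext
  intro p q
  rw [mul_e, sum_e]
  simp only [smul_e, unit_e, h, and_true]
  by_cases hpq : R.r p q = true
  · rw [if_pos hpq]
    by_cases hq : q = k
    · subst hq
      rw [Finset.sum_eq_single j, Finset.sum_eq_single p]
      · simp [hpq]
      · intro b _ hb
        rw [if_neg, mul_zero]
        rintro ⟨h2, _, _⟩
        exact hb h2.symm
      · simp
      · intro b _ hb
        simp [hb]
      · simp
    · simp [hq]
  · rw [if_neg hpq]
    symm
    apply Finset.sum_eq_zero
    intro t _
    rw [if_neg, mul_zero]
    rintro ⟨rfl, rfl, h'⟩
    exact hpq h'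

theorem sum_unit : ∑ i, unit R K i i = 1 := by
  apply ext
  intro p q
  rw [sum_e, one_e]
  simp only [unit_e, R.refl, and_true]
  by_cases h : p = q
  · subst h
    simp
  · rw [if_neg h]
    apply Finset.sum_eq_zero
    intro i _
    rw [if_neg]
    rintro ⟨rfl, h'⟩
    exact h h'.symm

end Alg

/-- The data of a thin module: a support on which the relation acts by identities. -/
structure Thin (R : Rel V) where
  D : V → Bool
  h : ∀ i k j, D i = true → D j = true → R.r i k = true → R.r k j = true → D k = R.r i j

/-- The family of thin modules indexed by `α`, as a space of functions. -/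
def famCarrier {α : Type} (T : α → Thin R) (K : Type u) [Field K] : Submodule K (α → V → K) where
  carrier := {v | ∀ a i, (T a).D i = false → v a i = 0}
  add_mem' := by
    intro f g hf hg i j h
    simp [hf i j h, hg i j h]
  zero_mem' := by
    intro i j _
    rfl
  smul_mem' := by
    intro c f hf i j h
    simp [hf i j h]

/-- The direct sum (product) of the thin modules `T a`. -/
def Fam {α : Type} (T : α → Thin R) (K : Type u) [Field K] : Type u := famCarrier T K

noncomputable instance {α : Type} (T : α → Thin R) : AddCommGroup (Fam T K) :=
  inferInstanceAs (AddCommGroup (famCarrier T K))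

namespace Fam

variable {α β γ : Type} {T : α → Thin R} {T' : β → Thin R} {T'' : γ → Thin R}

/-- component -/
def c (v : Fam T K) (a : α) (i : V) : K := v.1 a i

theorem ext {v w : Fam T K} (h : ∀ a i, v.c a i = w.c a i) : v = w :=
  Subtype.ext (funext fun i => funext fun j => h i j)

theorem c_eq_zero (v : Fam T K) {a : α} {i : V} (h : (T a).D i = false) : v.c a i = 0 := v.2 a i h

@[simp] theorem add_c (v w : Fam T K) (a : α) (i : V) : (v + w).c a i = v.c a i + w.c a i := rfl
@[simp] theorem zero_c (a : α) (i : V) : (0 : Fam T K).c a i = 0 := rfl

theorem ne_zero_iff (v : Fam T K) : v ≠ 0 ↔ ∃ a i, v.c a i ≠ 0 := by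
  constructor
  · intro h
    by_contra hc
    push Not at hc
    exact h (ext fun a i => by rw [hc a i]; rfl)
  · rintro ⟨a, i, h⟩ rfl
    exact h rfl

noncomputable instance : SMul (Alg R K) (Fam T K) :=
  ⟨fun f v => ⟨fun a i => if (T a).D i = true then ∑ j, f.e i j * v.c a j else 0, by
    intro a i h
    simp [h]⟩⟩

theorem smul_c (f : Alg R K) (v : Fam T K) (a : α) (i : V) :
    (f • v).c a i = if (T a).D i = true then ∑ j, f.e i j * v.c a j else 0 := rfl

noncomputable instance : Module (Alg R K) (Fam T K) where
  one_smul := by
    intro v
    apply ext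
    intro a i
    rw [smul_c]
    by_cases h : (T a).D i = true
    · rw [if_pos h]
      simp [Alg.one_e]
    · rw [if_neg h, v.c_eq_zero (by simpa using h)]
  mul_smul := by
    intro f g v
    apply ext
    intro a i
    rw [smul_c, smul_c]
    by_cases hi : (T a).D i = true
    · rw [if_pos hi, if_pos hi]
      have h1 : ∀ j, (f * g).e i j * v.c a j =
          ∑ k, (if R.r i j = true then f.e i k * g.e k j * v.c a j else 0) := by
        intro j
        rw [Alg.mul_e]
        by_cases hij : R.r i j = true
        · simp only [if_pos hij, Finset.sum_mul]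
        · simp [if_neg hij]
      have h2 : ∀ k, f.e i k * (g • v).c a k =
          ∑ j, (if (T a).D k = true then f.e i k * g.e k j * v.c a j else 0) := by
        intro k
        rw [smul_c]
        by_cases hk : (T a).D k = true
        · simp only [if_pos hk, Finset.mul_sum, mul_assoc]
        · simp [if_neg hk]
      simp only [h1, h2]
      rw [Finset.sum_comm]
      refine Finset.sum_congr rfl fun k _ => Finset.sum_congr rfl fun j _ => ?_
      by_cases hik : R.r i k = true
      · by_cases hkj : R.r k j = true
        · by_cases hj : (T a).D j = true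
          · rw [(T a).h i k j hi hj hik hkj]
          · rw [v.c_eq_zero (by simpa using hj)]; simp
        · rw [g.e_eq_zero (by simpa using hkj)]; simp
      · rw [f.e_eq_zero (by simpa using hik)]; simp
    · rw [if_neg hi, if_neg hi]
  smul_zero := by
    intro f
    apply ext
    intro a i
    rw [smul_c]
    simp
  zero_smul := by
    intro v
    apply ext
    intro a i
    rw [smul_c]
    simp
  smul_add := by
    intro f v w
    apply ext
    intro a i
    rw [add_c, smul_c, smul_c, smul_c]
    by_cases h : (T a).D i = true
    · simp only [if_pos h, add_c, mul_add, Finset.sum_add_distrib]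
    · simp [if_neg h]
  add_smul := by
    intro f g v
    apply ext
    intro a i
    rw [add_c, smul_c, smul_c, smul_c]
    by_cases h : (T a).D i = true
    · simp only [if_pos h, Alg.add_e, add_mul, Finset.sum_add_distrib]
    · simp [if_neg h]

theorem unit_smul_c (x i : V) (v : Fam T K) (a : α) (p : V) :
    (Alg.unit R K x i • v).c a p =
      if (T a).D p = true ∧ p = x ∧ R.r x i = true then v.c a i else 0 := by
  rw [smul_c]
  by_cases hp : (T a).D p = true
  · rw [if_pos hp]
    simp only [Alg.unit_e]
    by_cases hx : p = x ∧ R.r x i = true
    · obtain ⟨rfl, hx⟩ := hx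
      simp [hx, hp]
    · rw [if_neg (by rintro ⟨_, h2, h3⟩; exact hx ⟨h2, h3⟩)]
      apply Finset.sum_eq_zero
      intro q _
      rw [if_neg, zero_mul]
      rintro ⟨h1, _, h2⟩
      exact hx ⟨h1, h2⟩
  · rw [if_neg hp, if_neg (by rintro ⟨h, _⟩; exact hp h)]

variable [Fintype α] [Fintype β] [Fintype γ]

/-- compatibility of a coefficient matrix with the supports -/
def Compat (T : α → Thin R) (T' : β → Thin R) (C : β → α → ℤ) : Prop :=
  ∀ b a, C b a ≠ 0 → ∀ i j, (T' b).D i = true → (T a).D j = true → R.r i j = true →
    (T a).D i = (T' b).D j

/-- The homomorphism given by a matrix of integers. -/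
noncomputable def map (C : β → α → ℤ) (hC : Compat T T' C) :
    Fam T K →ₗ[Alg R K] Fam T' K where
  toFun v := ⟨fun b i => if (T' b).D i = true then ∑ a, (C b a : K) * v.c a i else 0, by
    intro b i h
    simp [h]⟩
  map_add' := by
    intro v w
    apply ext
    intro b i
    change (if (T' b).D i = true then ∑ a, (C b a : K) * (v + w).c a i else 0) =
      (if (T' b).D i = true then ∑ a, (C b a : K) * v.c a i else 0) +
      (if (T' b).D i = true then ∑ a, (C b a : K) * w.c a i else 0)
    by_cases h : (T' b).D i = true
    · simp only [if_pos h, add_c, mul_add, Finset.sum_add_distrib]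
    · simp [if_neg h]
  map_smul' := by
    intro f v
    apply ext
    intro b i
    change (if (T' b).D i = true then ∑ a, (C b a : K) * (f • v).c a i else 0) =
      (if (T' b).D i = true then ∑ j, f.e i j *
        (if (T' b).D j = true then ∑ a, (C b a : K) * v.c a j else 0) else 0)
    by_cases hi : (T' b).D i = true
    · rw [if_pos hi, if_pos hi]
      have h1 : ∀ a, (C b a : K) * (f • v).c a i =
          ∑ j, (if (T a).D i = true then (C b a : K) * (f.e i j * v.c a j) else 0) := by
        intro a
        rw [smul_c]
        by_cases ha : (T a).D i = true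
        · simp only [if_pos ha, Finset.mul_sum]
        · simp [if_neg ha]
      have h2 : ∀ j, f.e i j * (if (T' b).D j = true then ∑ a, (C b a : K) * v.c a j else 0) =
          ∑ a, (if (T' b).D j = true then (C b a : K) * (f.e i j * v.c a j) else 0) := by
        intro j
        by_cases hj : (T' b).D j = true
        · simp only [if_pos hj, Finset.mul_sum]
          refine Finset.sum_congr rfl fun a _ => ?_
          ring
        · simp [if_neg hj]
      simp only [h1, h2]
      rw [Finset.sum_comm]
      refine Finset.sum_congr rfl fun j _ => Finset.sum_congr rfl fun a _ => ?_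
      by_cases hC0 : C b a = 0
      · rw [hC0]; simp
      · by_cases hj : (T a).D j = true
        · by_cases hij : R.r i j = true
          · rw [hC b a hC0 i j hi hj hij]
          · rw [f.e_eq_zero (by simpa using hij)]; simp
        · rw [v.c_eq_zero (by simpa using hj)]; simp
    · rw [if_neg hi, if_neg hi]

theorem map_c (C : β → α → ℤ) (hC : Compat T T' C) (v : Fam T K) (b : β) (i : V) :
    (map C hC v).c b i = if (T' b).D i = true then ∑ a, (C b a : K) * v.c a i else 0 := rfl

/-- The complex condition. -/
def CompZero (T : α → Thin R) (T' : β → Thin R) (T'' : γ → Thin R)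
    (C : β → α → ℤ) (C' : γ → β → ℤ) : Prop :=
  ∀ c a i, (T'' c).D i = true → (T a).D i = true →
    ∑ b, (if (T' b).D i = true then C' c b * C b a else 0) = 0

/-- The contracting homotopy condition at the middle term. -/
def Homotopy [DecidableEq β] (T : α → Thin R) (T' : β → Thin R) (T'' : γ → Thin R)
    (C : β → α → ℤ) (C' : γ → β → ℤ) (H : V → α → β → ℤ) (H' : V → β → γ → ℤ) : Prop :=
  ∀ i b b', (T' b).D i = true → (T' b').D i = true →
    ∑ a, (if (T a).D i = true then C b a * H i a b' else 0) +
      ∑ c, (if (T'' c).D i = true then H' i b c * C' c b' else 0) = if b = b' then 1 else 0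

theorem map_comp_zero {C : β → α → ℤ} {C' : γ → β → ℤ} (hC : Compat T T' C)
    (hC' : Compat T' T'' C') (h0 : CompZero T T' T'' C C') (v : Fam T K) :
    map C' hC' (map C hC v) = 0 := by
  apply ext
  intro c i
  rw [map_c]
  by_cases hc : (T'' c).D i = true
  · rw [if_pos hc]
    have h1 : ∀ b, (C' c b : K) * (map C hC v).c b i =
        ∑ a, ((if (T' b).D i = true then C' c b * C b a else 0 : ℤ) : K) * v.c a i := by
      intro b
      rw [map_c]
      by_cases hb : (T' b).D i = true
      · simp only [if_pos hb, Finset.mul_sum, Int.cast_mul, mul_assoc]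
      · simp [if_neg hb]
    simp only [h1]
    rw [Finset.sum_comm]
    apply Finset.sum_eq_zero
    intro a _
    rw [← Finset.sum_mul]
    by_cases ha : (T a).D i = true
    · have := congrArg (Int.cast : ℤ → K) (h0 c a i hc ha)
      rw [Int.cast_sum, Int.cast_zero] at this
      rw [this, zero_mul]
    · rw [v.c_eq_zero (by simpa using ha), mul_zero]
  · rw [if_neg hc]; rfl

theorem exact_of_homotopy [DecidableEq β] {C : β → α → ℤ} {C' : γ → β → ℤ} (hC : Compat T T' C)
    (hC' : Compat T' T'' C') (h0 : CompZero T T' T'' C C')
    (H : V → α → β → ℤ) (H' : V → β → γ → ℤ) (hH : Homotopy T T' T'' C C' H H') :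
    LinearMap.range (map (K := K) C hC) = LinearMap.ker (map (K := K) C' hC') := by
  apply le_antisymm
  · rintro _ ⟨v, rfl⟩
    exact map_comp_zero hC hC' h0 v
  · intro v hv
    have hv' : map C' hC' v = 0 := hv
    refine ⟨⟨fun a i => if (T a).D i = true then ∑ b, (H i a b : K) * v.c b i else 0, by
      intro a i h
      simp [h]⟩, ?_⟩
    apply ext
    intro b i
    refine Eq.trans (map_c C hC _ b i) ?_
    by_cases hb : (T' b).D i = true
    · rw [if_pos hb]
      change ∑ a, (C b a : K) * (if (T a).D i = true then ∑ b', (H i a b' : K) * v.c b' i else 0)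
        = v.c b i
      have h1 : ∀ a, (C b a : K) *
          (if (T a).D i = true then ∑ b', (H i a b' : K) * v.c b' i else 0) =
          ∑ b', ((if (T a).D i = true then C b a * H i a b' else 0 : ℤ) : K) * v.c b' i := by
        intro a
        by_cases ha : (T a).D i = true
        · simp only [if_pos ha, Finset.mul_sum, Int.cast_mul, mul_assoc]
        · simp [if_neg ha]
      simp only [h1]
      rw [Finset.sum_comm]
      have h2 : ∀ b', ∑ a, ((if (T a).D i = true then C b a * H i a b' else 0 : ℤ) : K) * v.c b' i
          = (if b = b' then v.c b' i else 0) -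
            ∑ c, ((if (T'' c).D i = true then H' i b c * C' c b' else 0 : ℤ) : K) * v.c b' i := by
        intro b'
        rw [← Finset.sum_mul, ← Finset.sum_mul]
        by_cases hb' : (T' b').D i = true
        · have := congrArg (Int.cast : ℤ → K) (hH i b b' hb hb')
          rw [Int.cast_add, Int.cast_sum, Int.cast_sum] at this
          have h3 : ((if b = b' then 1 else 0 : ℤ) : K) = if b = b' then 1 else 0 := by
            split_ifs <;> simp
          rw [h3] at this
          rw [eq_sub_iff_add_eq, ← add_mul, this]
          split_ifs <;> simp
        · rw [v.c_eq_zero (by simpa using hb')]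
          simp
      simp only [h2]
      rw [Finset.sum_sub_distrib]
      have h4 : ∑ b', ∑ c, ((if (T'' c).D i = true then H' i b c * C' c b' else 0 : ℤ) : K) *
          v.c b' i = 0 := by
        rw [Finset.sum_comm]
        apply Finset.sum_eq_zero
        intro c _
        by_cases hc : (T'' c).D i = true
        · have h5 : (map C' hC' v).c c i = 0 := by rw [hv']; rfl
          rw [map_c, if_pos hc] at h5
          have h6 : ∀ b', ((if (T'' c).D i = true then H' i b c * C' c b' else 0 : ℤ) : K) *
              v.c b' i = (H' i b c : K) * ((C' c b' : K) * v.c b' i) := by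
            intro b'
            rw [if_pos hc, Int.cast_mul, mul_assoc]
          simp only [h6]
          rw [← Finset.mul_sum, h5, mul_zero]
        · simp [if_neg hc]
      rw [h4, sub_zero]
      simp
    · rw [if_neg hb, v.c_eq_zero (by simpa using hb)]

end Fam

end Pool.Agent.P8H62.PC
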