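import Pool.Agent.P8H62.PC.Defs

/-!
Computation of grades through an injective coresolution by dimension shifting.
-/

namespace Pool.Agent.P8H62.PC

universe u

open CategoryTheory Abelian

section

variable {A : Type u} [Ring A]
variable {M X₁ X₂ X₃ : Type u} [AddCommGroup M] [Module A M] [AddCommGroup X₁] [Module A X₁]
  [AddCommGroup X₂] [Module A X₂] [AddCommGroup X₃] [Module A X₃]

/-- the Ext group is nonzero -/
def ExtNe (A : Type u) [Ring A] (M X : Type u) [AddCommGroup M] [Module A M]
    [AddCommGroup X] [Module A X] (n : ℕ) : Prop :=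
  Nontrivial (Ext (ModuleCat.of A M) (ModuleCat.of A X) n)

theorem extNe_zero_iff : ExtNe A M X₁ 0 ↔ ∃ φ : M →ₗ[A] X₁, φ ≠ 0 := by
  unfold ExtNe
  constructor
  · intro h
    obtain ⟨x, hx⟩ := exists_ne (0 : Ext (ModuleCat.of A M) (ModuleCat.of A X₁) 0)
    obtain ⟨f, rfl⟩ := Ext.homEquiv₀.symm.surjective x
    refine ⟨f.hom, ?_⟩
    intro hf
    apply hx
    have : f = 0 := by
      ext1
      exact hf
    rw [this]
    simp
  · rintro ⟨φ, hφ⟩
    refine ⟨⟨Ext.homEquiv₀.symm (ModuleCat.ofHom φ), 0, ?_⟩⟩
    intro h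
    apply hφ
    have h2 : Ext.homEquiv₀.symm (ModuleCat.ofHom φ) =
        Ext.homEquiv₀.symm (0 : ModuleCat.of A M ⟶ ModuleCat.of A X₁) := by
      rw [h]; simp
    have h3 := Ext.homEquiv₀.symm.injective h2
    have h4 := congrArg ModuleCat.Hom.hom h3
    simpa using h4

theorem shift (f : X₁ →ₗ[A] X₂) (g : X₂ →ₗ[A] X₃) (hf : Function.Injective f)
    (hg : Function.Surjective g) (hfg : LinearMap.range f = LinearMap.ker g)
    (hinj : Module.Injective A X₂) (h0 : ∀ φ : M →ₗ[A] X₂, φ = 0) (n : ℕ) :
    ExtNe A M X₁ (n + 1) ↔ ExtNe A M X₃ n := by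
  have hcomp : g.comp f = 0 := by
    ext x
    have : f x ∈ LinearMap.ker g := by
      rw [← hfg]; exact ⟨x, rfl⟩
    exact this
  let S : ShortComplex (ModuleCat.{u} A) := ModuleCat.shortComplexOfCompEqZero f g hcomp
  have hS : S.ShortExact := by
    apply ModuleCat.shortComplex_shortExact
    · intro x
      constructor
      · intro hx
        have : x ∈ LinearMap.ker g := hx
        rw [← hfg] at this
        exact this
      · rintro ⟨y, rfl⟩
        have : f y ∈ LinearMap.ker g := by
          rw [← hfg]; exact ⟨y, rfl⟩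
        exact this
    · exact hf
    · exact hg
  have hI : Injective S.X₂ := Module.injective_object_of_injective_module A X₂
  have hz : ∀ m : ℕ, ∀ x : Ext (ModuleCat.of A M) S.X₂ m, x = 0 := by
    intro m x
    cases m with
    | zero =>
      by_contra hx
      have : ExtNe A M X₂ 0 := ⟨x, 0, hx⟩
      rw [extNe_zero_iff] at this
      obtain ⟨φ, hφ⟩ := this
      exact hφ (h0 φ)
    | succ m => exact Ext.eq_zero_of_injective x
  have key : Function.Bijective (fun x : Ext (ModuleCat.of A M) S.X₃ n =>
      x.comp hS.extClass (rfl : n + 1 = n + 1)) := by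
    constructor
    · intro x y hxy
      rw [← sub_eq_zero]
      have h1 : (x - y).comp hS.extClass (rfl : n + 1 = n + 1) = 0 := by
        rw [sub_eq_add_neg, Ext.add_comp, Ext.neg_comp, ← sub_eq_add_neg, sub_eq_zero]
        exact hxy
      obtain ⟨x₂, hx₂⟩ := Ext.covariant_sequence_exact₃ _ hS (x - y) rfl h1
      rw [← hx₂, hz n x₂, Ext.zero_comp]
    · intro y
      obtain ⟨x, hx⟩ := Ext.covariant_sequence_exact₁ (ModuleCat.of A M) hS y (hz _ _) rfl
      exact ⟨x, hx⟩
  exact (Equiv.ofBijective _ key).symm.nontrivial_congr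

theorem grade_eq (C : MinInjCores A) (i : ℕ) (h0 : ∀ j < i, ∀ φ : M →ₗ[A] C.I j, φ = 0)
    (hi : ∃ φ : M →ₗ[A] C.I i, φ ≠ 0 ∧ ∀ m, C.d i (φ m) = 0) : grade A M = i := by
  -- surjections onto the kernels
  have hsurj : ∀ j, Function.Surjective ((C.d j).codRestrict (LinearMap.ker (C.d (j + 1)))
      (fun x => by rw [← C.exact_succ]; exact ⟨x, rfl⟩)) := by
    intro j y
    have hy : (y : C.I (j + 1)) ∈ LinearMap.range (C.d j) := by
      rw [C.exact_succ]; exact y.2
    obtain ⟨x, hx⟩ := hy
    exact ⟨x, Subtype.ext hx⟩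
  have hker : ∀ j, LinearMap.ker ((C.d j).codRestrict (LinearMap.ker (C.d (j + 1)))
      (fun x => by rw [← C.exact_succ]; exact ⟨x, rfl⟩)) = LinearMap.ker (C.d j) := by
    intro j
    exact LinearMap.ker_codRestrict _ _ _
  have step : ∀ j, j + 1 ≤ i → ∀ n, ExtNe A M A (n + (j + 1)) ↔
      ExtNe A M (LinearMap.ker (C.d (j + 1))) n := by
    intro j
    induction j with
    | zero =>
      intro hj n
      refine shift C.ε ((C.d 0).codRestrict (LinearMap.ker (C.d 1))
        (fun x => by rw [← C.exact_succ]; exact ⟨x, rfl⟩)) C.ε_injective (hsurj 0) ?_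
        (C.injective 0) (h0 0 (by omega)) n
      rw [hker, C.exact_zero]
    | succ j ih =>
      intro hj n
      have h1 := ih (by omega) (n + 1)
      have h2 : n + (j + 1 + 1) = n + 1 + (j + 1) := by omega
      rw [h2, h1]
      refine shift (LinearMap.ker (C.d (j + 1))).subtype
        ((C.d (j + 1)).codRestrict (LinearMap.ker (C.d (j + 2)))
        (fun x => by rw [← C.exact_succ]; exact ⟨x, rfl⟩)) (Submodule.subtype_injective _)
        (hsurj (j + 1)) ?_ (C.injective (j + 1)) (h0 (j + 1) (by omega)) n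
      rw [hker, Submodule.range_subtype]
  have hle : ∀ j < i, ¬ ExtNe A M A j := by
    intro j hj
    cases j with
    | zero =>
      rw [extNe_zero_iff]
      rintro ⟨φ, hφ⟩
      apply hφ
      have h1 := h0 0 hj (C.ε.comp φ)
      ext m
      apply C.ε_injective
      rw [LinearMap.zero_apply, map_zero]
      exact LinearMap.congr_fun h1 m
    | succ j =>
      have h1 := step j (by omega) 0
      rw [zero_add] at h1
      rw [h1, extNe_zero_iff]
      rintro ⟨φ, hφ⟩
      apply hφ
      have h2 := h0 (j + 1) hj ((LinearMap.ker (C.d (j + 1))).subtype.comp φ)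
      ext m
      exact LinearMap.congr_fun h2 m
  have hmem : ExtNe A M A i := by
    obtain ⟨φ, hφ, hd⟩ := hi
    cases i with
    | zero =>
      rw [extNe_zero_iff]
      have hr : ∀ m, φ m ∈ LinearMap.range C.ε := by
        intro m
        rw [C.exact_zero]
        exact hd m
      let e := LinearEquiv.ofInjective C.ε C.ε_injective
      refine ⟨e.symm.toLinearMap.comp (φ.codRestrict _ hr), ?_⟩
      intro h
      apply hφ
      ext m
      have h1 := LinearMap.congr_fun h m
      have h2 : (φ.codRestrict _ hr) m = 0 := by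
        have : e.symm ((φ.codRestrict _ hr) m) = 0 := h1
        simpa using this
      exact congrArg Subtype.val h2
    | succ j =>
      have h1 := step j le_rfl 0
      rw [zero_add] at h1
      rw [h1, extNe_zero_iff]
      refine ⟨φ.codRestrict _ hd, ?_⟩
      intro h
      apply hφ
      ext m
      have h1 := LinearMap.congr_fun h m
      exact congrArg Subtype.val h1
  apply le_antisymm
  · apply sInf_le
    exact ⟨i, rfl, hmem⟩
  · apply le_sInf
    rintro _ ⟨j, rfl, hj⟩
    by_contra hlt
    rw [not_le] at hlt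
    exact hle j (by exact_mod_cast hlt) hj

end

end Pool.Agent.P8H62.PC
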