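import Pool.Agent.P8H62.PC.Inj
import Pool.Agent.P8H62.PC.Grade

/-!
A combinatorial description of a minimal injective coresolution of `Alg R K` by thin modules,
and a purity criterion.
-/

namespace Pool.Agent.P8H62.PC

universe u

set_option linter.unusedSectionVars false
set_option linter.unusedVariables false

variable {V : Type} [Fintype V] [DecidableEq V]

instance {R : Rel V} {α β : Type} [Fintype α] [Fintype β] [DecidableEq α] [DecidableEq β]
    (T : α → Thin R) (T' : β → Thin R)
    (C : β → α → ℤ) : Decidable (Fam.Compat T T' C) := by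
  unfold Fam.Compat
  infer_instance

instance {R : Rel V} {α β γ : Type} [Fintype α] [Fintype β] [Fintype γ]
    (T : α → Thin R) (T' : β → Thin R) (T'' : γ → Thin R)
    (C : β → α → ℤ) (C' : γ → β → ℤ) : Decidable (Fam.CompZero T T' T'' C C') := by
  unfold Fam.CompZero
  infer_instance

instance {R : Rel V} {α β γ : Type} [Fintype α] [Fintype β] [Fintype γ] [DecidableEq β]
    (T : α → Thin R) (T' : β → Thin R) (T'' : γ → Thin R)
    (C : β → α → ℤ) (C' : γ → β → ℤ) (H : V → α → β → ℤ) (H' : V → β → γ → ℤ) :
    Decidable (Fam.Homotopy T T' T'' C C' H H') := by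
  unfold Fam.Homotopy
  infer_instance

/-- the family of injective thin modules with socles `x a` -/
abbrev II {α : Type} (R : Rel V) (x : α → V) : α → Thin R := fun a => Thin.I R (x a)

/-- Combinatorial data of a coresolution. -/
structure CoresData {n : ℕ} (R : Rel (Fin n)) where
  num : ℕ → ℕ
  x : ∀ i, Fin (num i) → Fin n
  E : Fin (num 0) → Fin n → ℤ
  C : ∀ i, Fin (num (i + 1)) → Fin (num i) → ℤ
  g : Fin n → ℕ
  hg : ∀ i a, g (x i a) = i
  mono : ∀ i j, R.r i j = true → g i ≤ g j
  hord : ∀ i j, R.r i j = true → j ≤ i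
  cE : Fam.Compat (Thin.P R) (II R (x 0)) E
  cC : ∀ i, Fam.Compat (II R (x i)) (II R (x (i + 1))) (C i)
  HE : Fin n → Fin n → Fin (num 0) → ℤ
  HC : ∀ i, Fin n → Fin (num i) → Fin (num (i + 1)) → ℤ
  hE : ∀ i b b', R.r i b = true → R.r i b' = true →
    ∑ c, (if R.r (x 0 c) i = true then HE i b c * E c b' else 0) = if b = b' then 1 else 0
  z0 : Fam.CompZero (Thin.P R) (II R (x 0)) (II R (x 1)) E (C 0)
  zs : ∀ i, Fam.CompZero (II R (x i)) (II R (x (i + 1))) (II R (x (i + 2))) (C i) (C (i + 1))
  h0 : Fam.Homotopy (Thin.P R) (II R (x 0)) (II R (x 1)) E (C 0) HE (HC 0)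
  hs : ∀ i, Fam.Homotopy (II R (x i)) (II R (x (i + 1))) (II R (x (i + 2))) (C i) (C (i + 1))
    (HC i) (HC (i + 1))

namespace CoresData

variable {n : ℕ} {R : Rel (Fin n)} (D : CoresData R) (K : Type u) [Field K]

include D in
theorem hord' (i j : Fin n) (h : R.r i j = true) : i = j ∨ j.val < i.val := by
  have := D.hord i j h
  rcases eq_or_lt_of_le this with h1 | h1
  · exact Or.inl h1.symm
  · exact Or.inr h1

theorem E_injective : Function.Injective (Fam.map (K := K) D.E D.cE) := by
  rw [← LinearMap.ker_eq_bot, LinearMap.ker_eq_bot']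
  intro v hv
  apply Fam.ext
  intro b i
  rw [Fam.zero_c]
  by_cases hb : R.r i b = true
  · have h1 : ∀ c, (if R.r (D.x 0 c) i = true then
        (D.HE i b c : K) * ∑ b', (D.E c b' : K) * v.c b' i else 0) = 0 := by
      intro c
      by_cases hc : R.r (D.x 0 c) i = true
      · rw [if_pos hc]
        have h2 : (Fam.map (K := K) D.E D.cE v).c c i = 0 := by rw [hv]; rfl
        rw [Fam.map_c] at h2
        have hc' : (II R (D.x 0) c).D i = true := hc
        rw [if_pos hc'] at h2
        rw [h2, mul_zero]
      · rw [if_neg hc]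
    have h3 : ∑ c, (if R.r (D.x 0 c) i = true then
        (D.HE i b c : K) * ∑ b', (D.E c b' : K) * v.c b' i else 0) = 0 :=
      Finset.sum_eq_zero fun c _ => h1 c
    have h4 : ∀ c, (if R.r (D.x 0 c) i = true then
        (D.HE i b c : K) * ∑ b', (D.E c b' : K) * v.c b' i else 0) =
        ∑ b', ((if R.r (D.x 0 c) i = true then D.HE i b c * D.E c b' else 0 : ℤ) : K)
          * v.c b' i := by
      intro c
      by_cases hc : R.r (D.x 0 c) i = true
      · simp only [if_pos hc, Finset.mul_sum, Int.cast_mul, mul_assoc]
      · simp [if_neg hc]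
    simp only [h4] at h3
    rw [Finset.sum_comm] at h3
    have h5 : ∀ b', ∑ c, ((if R.r (D.x 0 c) i = true then D.HE i b c * D.E c b' else 0 : ℤ) : K)
          * v.c b' i = if b = b' then v.c b' i else 0 := by
      intro b'
      rw [← Finset.sum_mul]
      by_cases hb' : R.r i b' = true
      · have := congrArg (Int.cast : ℤ → K) (D.hE i b b' hb hb')
        rw [Int.cast_sum] at this
        rw [this]
        split_ifs <;> simp
      · have h6 : v.c b' i = 0 :=
          v.c_eq_zero (show (Thin.P R b').D i = false from Bool.eq_false_iff.2 hb')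
        rw [h6]
        simp
    simp only [h5] at h3
    simpa using h3
  · exact v.c_eq_zero (show (Thin.P R b).D i = false from Bool.eq_false_iff.2 hb)

theorem exact_zero : LinearMap.range (Fam.map (K := K) D.E D.cE) =
    LinearMap.ker (Fam.map (K := K) (D.C 0) (D.cC 0)) :=
  Fam.exact_of_homotopy D.cE (D.cC 0) D.z0 D.HE (D.HC 0) D.h0

theorem exact_succ (i : ℕ) : LinearMap.range (Fam.map (K := K) (D.C i) (D.cC i)) =
    LinearMap.ker (Fam.map (K := K) (D.C (i + 1)) (D.cC (i + 1))) :=
  Fam.exact_of_homotopy (D.cC i) (D.cC (i + 1)) (D.zs i) (D.HC i) (D.HC (i + 1)) (D.hs i)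

theorem essential (i : ℕ) (N : Submodule (Alg R K) (Fam (II R (D.x i)) K)) (hN : N ≠ ⊥) :
    N ⊓ LinearMap.ker (Fam.map (K := K) (D.C i) (D.cC i)) ≠ ⊥ := by
  obtain ⟨m, hm, hm0, hs⟩ := exists_socle (D.x i) (fun j => j.val) (fun p q h => D.hord' p q h) N hN
  rw [Submodule.ne_bot_iff]
  refine ⟨m, ⟨hm, ?_⟩, hm0⟩
  change Fam.map (K := K) (D.C i) (D.cC i) m = 0
  apply Fam.ext
  intro b p
  rw [Fam.map_c, Fam.zero_c]
  by_cases hb : (II R (D.x (i + 1)) b).D p = true
  · rw [if_pos hb]
    apply Finset.sum_eq_zero
    intro a _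
    by_cases hma : m.c a p = 0
    · rw [hma, mul_zero]
    · exfalso
      have hp := hs a p hma
      subst hp
      have h1 : R.r (D.x (i + 1) b) (D.x i a) = true := hb
      have h2 := D.mono _ _ h1
      rw [D.hg, D.hg] at h2
      omega
  · rw [if_neg hb]

/-- The minimal injective coresolution. -/
noncomputable def cores : MinInjCores (Alg R K) where
  I i := Fam (II R (D.x i)) K
  grp i := inferInstance
  mod i := inferInstance
  injective i := fam_injective (D.x i)
  ε := (Fam.map (K := K) D.E D.cE).comp (reg R K).toLinearMap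
  d i := Fam.map (K := K) (D.C i) (D.cC i)
  ε_injective := by
    intro a b hab
    exact (reg R K).injective (D.E_injective K hab)
  exact_zero := by
    rw [LinearMap.range_comp_of_range_eq_top _ (LinearEquiv.range _)]
    exact D.exact_zero K
  exact_succ i := D.exact_succ K i
  essential_zero := by
    intro N hN
    rw [LinearMap.range_comp_of_range_eq_top _ (LinearEquiv.range _), D.exact_zero K]
    exact D.essential K 0 N hN
  essential_succ := by
    intro i N hN
    rw [D.exact_succ K i]
    exact D.essential K (i + 1) N hN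

/-- the purity condition -/
def PureCond : Prop :=
  ∀ i, ∀ a : Fin (D.num i), ∃ a' : Fin (D.num i),
    (∀ p q, R.r (D.x i a') p = true → R.r (D.x i a) q = true → R.r p q = true →
      R.r (D.x i a) p = R.r (D.x i a') q) ∧
    (∀ b, D.C i b a' = 0) ∧
    (∀ j, j ≠ D.x i a → R.r (D.x i a) j = true → R.r (D.x i a') j = true)

variable {D K}

theorem exists_hom (hp : D.PureCond) (i : ℕ) {M : Type u} [AddCommGroup M]
    [Module (Alg R K) M] [Nontrivial M] (ι : M →ₗ[Alg R K] Fam (II R (D.x i)) K)
    (hι : Function.Injective ι) :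
    ∃ φ : M →ₗ[Alg R K] Fam (II R (D.x i)) K, φ ≠ 0 ∧
      ∀ m, Fam.map (K := K) (D.C i) (D.cC i) (φ m) = 0 := by
  · obtain ⟨m₀, hm₀⟩ := exists_ne (0 : M)
    have h1 : ι m₀ ≠ 0 := by
      intro h
      apply hm₀
      apply hι
      rw [h, map_zero]
    obtain ⟨a, j₀, haj⟩ := (Fam.ne_zero_iff (ι m₀ : Fam (II R (D.x i)) K)).1 h1
    obtain ⟨a', hc1, hc2, hc3⟩ := hp i a
    by_cases hcase : ∃ m : M, ∃ j, j ≠ D.x i a ∧ (ι m).c a j ≠ 0
    · obtain ⟨m, j, hj, hmj⟩ := hcase
      have hjr : R.r (D.x i a) j = true := by
        by_contra hc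
        exact hmj (Fam.c_eq_zero _ (show (Thin.I R (D.x i a)).D j = false from
          Bool.eq_false_iff.2 hc))
      have hcomp : Fam.Compat (II R (D.x i)) (II R (D.x i))
          (fun b c => if b = a' ∧ c = a then 1 else 0) := by
        intro b c hbc p q h1 h2 h3
        have hbc' : b = a' ∧ c = a := by
          by_contra hn
          exact hbc (if_neg hn)
        obtain ⟨rfl, rfl⟩ := hbc'
        exact hc1 p q h1 h2 h3
      refine ⟨(Fam.map (K := K) _ hcomp).comp ι, ?_, ?_⟩
      · intro h
        have h1 := LinearMap.congr_fun h m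
        have h2 : (Fam.map (K := K) _ hcomp (ι m)).c a' j = 0 := by
          have : Fam.map (K := K) _ hcomp (ι m) = 0 := h1
          rw [this]; rfl
        rw [Fam.map_c] at h2
        have h3 : (II R (D.x i) a').D j = true := hc3 j hj hjr
        rw [if_pos h3] at h2
        apply hmj
        simpa using h2
      · intro m'
        rw [LinearMap.comp_apply]
        apply Fam.ext
        intro b p
        rw [Fam.map_c, Fam.zero_c]
        split_ifs
        · apply Finset.sum_eq_zero
          intro c _
          by_cases hca : c = a'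
          · rw [hca, hc2 b]; simp
          · have : (Fam.map (K := K) _ hcomp (ι m')).c c p = 0 := by
              rw [Fam.map_c]
              simp [hca]
            rw [this, mul_zero]
        · rfl
    · push Not at hcase
      have hcomp : Fam.Compat (II R (D.x i)) (II R (D.x i))
          (fun b c => if b = a ∧ c = a then 1 else 0) := by
        intro b c hbc p q h1 h2 h3
        have hbc' : b = a ∧ c = a := by
          by_contra hn
          exact hbc (if_neg hn)
        obtain ⟨hb, hc⟩ := hbc'
        rw [hb, ← hc] at h1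
        have h1' : R.r (D.x i c) p = true := h1
        have h2' : R.r (D.x i c) q = true := h2
        rw [hb, ← hc]
        change R.r (D.x i c) p = R.r (D.x i c) q
        rw [h1', h2']
      refine ⟨(Fam.map (K := K) _ hcomp).comp ι, ?_, ?_⟩
      · intro h
        have h1 := LinearMap.congr_fun h m₀
        have h2 : (Fam.map (K := K) _ hcomp (ι m₀)).c a j₀ = 0 := by
          have : Fam.map (K := K) _ hcomp (ι m₀) = 0 := h1
          rw [this]; rfl
        rw [Fam.map_c] at h2
        have h3 : (II R (D.x i) a).D j₀ = true := by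
          by_contra hc
          exact haj (Fam.c_eq_zero _ (show (Thin.I R (D.x i a)).D j₀ = false from
            Bool.eq_false_iff.2 hc))
        rw [if_pos h3] at h2
        apply haj
        simpa using h2
      · intro m'
        rw [LinearMap.comp_apply]
        apply Fam.ext
        intro b p
        rw [Fam.map_c, Fam.zero_c]
        by_cases hb : (II R (D.x (i + 1)) b).D p = true
        · rw [if_pos hb]
          apply Finset.sum_eq_zero
          intro c _
          by_cases hca : c = a
          · subst hca
            by_cases hpx : p = D.x i c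
            · exfalso
              subst hpx
              have h1 : R.r (D.x (i + 1) b) (D.x i c) = true := hb
              have h2 := D.mono _ _ h1
              rw [D.hg, D.hg] at h2
              omega
            · have h3 := hcase m' p hpx
              have : (Fam.map (K := K) _ hcomp (ι m')).c c p = 0 := by
                rw [Fam.map_c]
                simp [h3]
              rw [this, mul_zero]
          · have : (Fam.map (K := K) _ hcomp (ι m')).c c p = 0 := by
              rw [Fam.map_c]
              simp [hca]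
            rw [this, mul_zero]
        · rw [if_neg hb]

theorem grade_eq_of_embedding (hp : D.PureCond) (i : ℕ) {M : Type u} [AddCommGroup M]
    [Module (Alg R K) M] [Nontrivial M] (ι : M →ₗ[Alg R K] Fam (II R (D.x i)) K)
    (hι : Function.Injective ι) : grade (Alg R K) M = i := by
  apply grade_eq (D.cores K) i
  · intro j hj φ
    refine hom_eq_zero (D.x j) ?_ φ
    intro a m
    refine unit_smul_eq_zero (D.x i) _ ι hι ?_ m
    intro a'
    by_contra hc
    rw [Bool.not_eq_false] at hc
    have h := D.mono _ _ hc
    rw [D.hg, D.hg] at h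
    omega
  · exact exists_hom hp i ι hι

theorem pure_and_grade (hp : D.PureCond) (i : ℕ) [Nontrivial ((D.cores K).I i)] :
    IsPure (Alg R K) ((D.cores K).I i) ∧ grade (Alg R K) ((D.cores K).I i) = i := by
  have h1 : grade (Alg R K) ((D.cores K).I i) = i :=
    grade_eq_of_embedding hp i LinearMap.id Function.injective_id
  refine ⟨?_, h1⟩
  intro N hN
  rw [h1]
  have : Nontrivial N := Submodule.nontrivial_iff_ne_bot.2 hN
  exact grade_eq_of_embedding hp i N.subtype (Submodule.subtype_injective _)

end CoresData

end Pool.Agent.P8H62.PC
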