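import Pool.Agent.P8H62.PC.Cores

/-!
The concrete ten-vertex relation and its coresolution data.
-/

namespace Pool.Agent.P8H62.PC

set_option linter.style.longLine false

/-- bit masks of the rows of the relation -/
def masks : List ℕ := [1, 3, 4, 13, 31, 59, 123, 137, 507, 540]

/-- `rr i j` is true iff there is a basis element `e_i * A * e_j`. -/
def rr (i j : Fin 10) : Bool := (masks.getD i.val 0).testBit j.val

/-- The ten-vertex relation. -/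
def rel : Rel (Fin 10) where
  r := rr
  refl := by decide +kernel
  assoc := by decide +kernel

/-- grades of the vertices -/
def gg (i : Fin 10) : ℕ := [2, 2, 3, 2, 1, 1, 1, 1, 0, 0].getD i.val 0

/-- number of summands -/
def num : ℕ → ℕ
  | 0 => 12
  | 1 => 12
  | 2 => 5
  | 3 => 2
  | _ => 0

/-- socles of the summands -/
def xsL : ℕ → List (Fin 10)
  | 0 => [8, 8, 9, 8, 9, 8, 9, 8, 8, 8, 8, 9]
  | 1 => [7, 4, 4, 7, 4, 7, 5, 7, 6, 6, 7, 4]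
  | 2 => [0, 3, 3, 3, 1]
  | 3 => [2, 2]
  | _ => []

def xx (i : ℕ) (a : Fin (num i)) : Fin 10 := (xsL i).getD a.val 0

def EL : List (List ℤ) := [[1, 0, 0, 0, 0, 0, 0, 0, 0, 0], [0, 1, 0, 0, 0, 0, 0, 0, 0, 0], [0, 0, 1, 0, 0, 0, 0, 0, 0, 0], [0, 0, 0, 1, 0, 0, 0, 0, 0, 0], [0, 0, 0, 1, 0, 0, 0, 0, 0, 0], [0, 0, 0, 0, 1, 0, 0, 0, 0, 0], [0, 0, 0, 0, 1, 0, 0, 0, 0, 0], [0, 0, 0, 0, 0, 1, 0, 0, 0, 0], [0, 0, 0, 0, 0, 0, 1, 0, 0, 0], [0, 0, 0, 0, 0, 0, 0, 1, 0, 0], [0, 0, 0, 0, 0, 0, 0, 0, 1, 0], [0, 0, 0, 0, 0, 0, 0, 0, 0, 1]]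

def EE (a : Fin (num 0)) (j : Fin 10) : ℤ := (EL.getD a.val []).getD j.val 0

def CL : ℕ → List (List ℤ)
  | 0 => [[0, 1, 0, 0, 0, 0, 0, 0, 0, 0, 0, 0], [0, 0, 0, 1, -1, 0, 0, 0, 0, 0, 0, 0], [0, 0, 0, 0, 0, 1, -1, 0, 0, 0, 0, 0], [0, 0, 0, 0, 0, 1, 0, 0, 0, 0, 0, 0], [0, 0, 0, 0, 0, 0, 0, 1, 0, 0, 0, 0], [0, 0, 0, 0, 0, 0, 0, 1, 0, 0, 0, 0], [0, 0, 0, 0, 0, 0, 0, 0, 1, 0, 0, 0], [0, 0, 0, 0, 0, 0, 0, 0, 1, 0, 0, 0], [0, 0, 0, 0, 0, 0, 0, 0, 0, 1, 0, 0], [0, 0, 0, 0, 0, 0, 0, 0, 0, 0, 1, 0], [0, 0, 0, 0, 0, 0, 0, 0, 0, 0, 1, 0], [0, 0, 0, 0, 0, 0, 0, 0, 0, 0, 0, 1]]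
  | 1 => [[0, 0, 1, -1, 0, 0, 0, 0, 0, 0, 0, 0], [0, 0, 0, 0, 1, -1, 0, 0, 0, 0, 0, 0], [0, 0, 0, 0, 0, 0, 1, -1, 0, 0, 0, 0], [0, 0, 0, 0, 0, 0, 0, 0, 0, 1, -1, 0], [0, 0, 0, 0, 0, 0, 0, 0, 0, 0, 0, 1]]
  | 2 => [[0, 0, 1, 0, 0], [0, 0, 0, 1, 0]]
  | _ => []

def CC (i : ℕ) (b : Fin (num (i + 1))) (a : Fin (num i)) : ℤ :=
  ((CL i).getD b.val []).getD a.val 0

def lookup (l : List (ℕ × ℕ × ℤ)) (x y : ℕ) : ℤ :=
  match l.find? (fun t => (t.1 == x) && (t.2.1 == y)) with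
  | some t => t.2.2
  | none => 0

def HEL : List (List (ℕ × ℕ × ℤ)) := [[(0, 0, 1)],
    [(0, 0, 1), (1, 1, 1)],
    [(2, 2, 1)],
    [(0, 0, 1), (2, 2, 1), (3, 4, 1)],
    [(0, 0, 1), (1, 1, 1), (2, 2, 1), (3, 4, 1), (4, 6, 1)],
    [(0, 0, 1), (1, 1, 1), (3, 3, 1), (4, 5, 1), (5, 7, 1)],
    [(0, 0, 1), (1, 1, 1), (3, 3, 1), (4, 5, 1), (5, 7, 1), (6, 8, 1)],
    [(0, 0, 1), (3, 3, 1), (7, 9, 1)],
    [(0, 0, 1), (1, 1, 1), (3, 3, 1), (4, 5, 1), (5, 7, 1), (6, 8, 1), (7, 9, 1), (8, 10, 1)],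
    [(2, 2, 1), (3, 4, 1), (4, 6, 1), (9, 11, 1)]]

def HE (i b : Fin 10) (c : Fin (num 0)) : ℤ := lookup (HEL.getD i.val []) b.val c.val

def HCL : ℕ → List (List (ℕ × ℕ × ℤ))
  | 0 => [[(1, 0, 1), (3, 1, 1), (5, 3, 1), (7, 5, 1), (8, 7, 1), (9, 8, 1), (10, 10, 1)],
    [(3, 1, 1), (5, 2, 1), (7, 4, 1), (8, 6, 1), (9, 8, 1), (10, 9, 1)],
    [(4, 1, -1), (6, 2, -1), (11, 11, 1)],
    [(1, 0, 1), (3, 1, 1), (5, 3, 1), (6, 2, -1), (6, 3, 1), (7, 5, 1), (8, 7, 1), (9, 8, 1), (10, 10, 1), (11, 11, 1)],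
    [(3, 1, 1), (5, 2, 1), (7, 4, 1), (8, 6, 1), (9, 8, 1), (10, 9, 1), (11, 11, 1)],
    [(8, 6, 1), (9, 8, 1), (10, 9, 1)],
    [(9, 8, 1), (10, 9, 1)],
    [(1, 0, 1), (5, 3, 1), (7, 5, 1), (8, 7, 1), (10, 10, 1)],
    [],
    []]
  | 1 => [[(2, 0, 1), (4, 1, 1), (6, 2, 1), (9, 3, 1), (11, 4, 1)],
    [(11, 4, 1)],
    [(4, 1, 1)],
    [(4, 1, 1), (6, 2, 1), (9, 3, 1)],
    [],
    [],
    [],
    [],
    [],
    []]
  | 2 => [[],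
    [],
    [(2, 0, 1), (3, 1, 1)],
    [],
    [],
    [],
    [],
    [],
    [],
    []]
  | _ => []

def HC (k : ℕ) (i : Fin 10) (a : Fin (num k)) (b : Fin (num (k + 1))) : ℤ :=
  lookup ((HCL k).getD i.val []) a.val b.val

theorem cE_dec : Fam.Compat (Thin.P rel) (II rel (xx 0)) EE := by decide +kernel
theorem cC0 : Fam.Compat (II rel (xx 0)) (II rel (xx 1)) (CC 0) := by decide +kernel
theorem cC1 : Fam.Compat (II rel (xx 1)) (II rel (xx 2)) (CC 1) := by decide +kernel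
theorem cC2 : Fam.Compat (II rel (xx 2)) (II rel (xx 3)) (CC 2) := by decide +kernel
theorem hE_dec : ∀ i b b', rel.r i b = true → rel.r i b' = true →
    ∑ c, (if rel.r (xx 0 c) i = true then HE i b c * EE c b' else 0) = if b = b' then 1 else 0 := by
  decide +kernel
theorem z0_dec : Fam.CompZero (Thin.P rel) (II rel (xx 0)) (II rel (xx 1)) EE (CC 0) := by
  decide +kernel
theorem zs0 : Fam.CompZero (II rel (xx 0)) (II rel (xx 1)) (II rel (xx 2)) (CC 0) (CC 1) := by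
  decide +kernel
theorem zs1 : Fam.CompZero (II rel (xx 1)) (II rel (xx 2)) (II rel (xx 3)) (CC 1) (CC 2) := by
  decide +kernel
theorem h0_dec : Fam.Homotopy (Thin.P rel) (II rel (xx 0)) (II rel (xx 1)) EE (CC 0) HE (HC 0) := by
  decide +kernel
theorem hs0 : Fam.Homotopy (II rel (xx 0)) (II rel (xx 1)) (II rel (xx 2)) (CC 0) (CC 1)
    (HC 0) (HC 1) := by
  decide +kernel
theorem hs1 : Fam.Homotopy (II rel (xx 1)) (II rel (xx 2)) (II rel (xx 3)) (CC 1) (CC 2)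
    (HC 1) (HC 2) := by
  decide +kernel
theorem hs2 : Fam.Homotopy (II rel (xx 2)) (II rel (xx 3)) (II rel (xx 4)) (CC 2) (CC 3)
    (HC 2) (HC 3) := by
  decide +kernel

theorem mono_dec : ∀ i j, rel.r i j = true → gg i ≤ gg j := by decide +kernel
theorem hord_dec : ∀ i j, rel.r i j = true → j ≤ i := by decide +kernel

/-- The coresolution data of the example. -/
def data : CoresData rel where
  num := num
  x := xx
  E := EE
  C := CC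
  g := gg
  hg := fun i => match i with
    | 0 => by decide +kernel
    | 1 => by decide +kernel
    | 2 => by decide +kernel
    | 3 => by decide +kernel
    | (n + 4) => fun a => a.elim0
  mono := mono_dec
  hord := hord_dec
  cE := cE_dec
  cC := fun i => match i with
    | 0 => cC0
    | 1 => cC1
    | 2 => cC2
    | (n + 3) => fun b => b.elim0
  HE := HE
  HC := HC
  hE := hE_dec
  z0 := z0_dec
  zs := fun i => match i with
    | 0 => zs0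
    | 1 => zs1
    | (n + 2) => fun c => c.elim0
  h0 := h0_dec
  hs := fun i => match i with
    | 0 => hs0
    | 1 => hs1
    | 2 => hs2
    | (n + 3) => fun _ b => b.elim0

theorem pureCond : data.PureCond := fun i => match i with
  | 0 => by decide +kernel
  | 1 => by decide +kernel
  | 2 => by decide +kernel
  | 3 => by decide +kernel
  | (n + 4) => fun a => a.elim0

end Pool.Agent.P8H62.PC
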