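import Mathlib

/-!
Grade, pure modules, minimal injective coresolutions of the regular module, over an arbitrary
ring (left modules).
-/

namespace Pool.Agent.P8H62.PC

universe u

open CategoryTheory Abelian

/-- `grade M = inf {i : Ext^i(M, A) ≠ 0}`, an extended natural number. -/
noncomputable def grade (A : Type u) [Ring A] (M : Type u) [AddCommGroup M] [Module A M] : ℕ∞ :=
  sInf {n : ℕ∞ | ∃ i : ℕ, n = i ∧
    Nontrivial (Ext (ModuleCat.of A M) (ModuleCat.of A A) i)}

/-- `M` is pure if every nonzero submodule has the same grade as `M`. -/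
def IsPure (A : Type u) [Ring A] (M : Type u) [AddCommGroup M] [Module A M] : Prop :=
  ∀ N : Submodule A M, N ≠ ⊥ → grade A N = grade A M

/-- A minimal injective coresolution `0 → A → I 0 → I 1 → ⋯` of the regular module `A`:
an exact complex of injective modules in which the image of each map is an essential
submodule of the next term. -/
structure MinInjCores (A : Type u) [Ring A] where
  I : ℕ → Type u
  grp : ∀ i, AddCommGroup (I i)
  mod : ∀ i, Module A (I i)
  injective : ∀ i, Module.Injective A (I i)
  ε : A →ₗ[A] I 0
  d : ∀ i, I i →ₗ[A] I (i + 1)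
  ε_injective : Function.Injective ε
  exact_zero : LinearMap.range ε = LinearMap.ker (d 0)
  exact_succ : ∀ i, LinearMap.range (d i) = LinearMap.ker (d (i + 1))
  essential_zero : ∀ N : Submodule A (I 0), N ≠ ⊥ → N ⊓ LinearMap.range ε ≠ ⊥
  essential_succ : ∀ i, ∀ N : Submodule A (I (i + 1)), N ≠ ⊥ → N ⊓ LinearMap.range (d i) ≠ ⊥

attribute [instance] MinInjCores.grp MinInjCores.mod

end Pool.Agent.P8H62.PC
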