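import Pool.Agent.P8H62.PC.Inj

/-!
Finite global dimension of `Alg R K` for a triangular relation.
-/

namespace Pool.Agent.P8H62.PC

universe u

set_option linter.unusedSectionVars false
set_option linter.unusedVariables false

open CategoryTheory

variable {V : Type} [Fintype V] [DecidableEq V] {R : Rel V} {K : Type u} [Field K]

/-- a single indecomposable projective -/
abbrev PP (R : Rel V) (K : Type u) [Field K] (k : V) : Type u := Fam (fun _ : Unit => Thin.P R k) K

/-- the inclusion `A e_k → A` -/
noncomputable def incl (R : Rel V) (K : Type u) [Field K] (k : V) : PP R K k →ₗ[Alg R K] Alg R K where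
  toFun v := ⟨fun p q => if q = k then v.c () p else 0, by
    intro p q h
    change (if q = k then v.c () p else 0) = 0
    by_cases hq : q = k
    · subst hq
      rw [if_pos rfl]
      exact v.c_eq_zero h
    · rw [if_neg hq]⟩
  map_add' := by
    intro v w
    apply Alg.ext
    intro p q
    change (if q = k then (v + w).c () p else 0) =
      (if q = k then v.c () p else 0) + (if q = k then w.c () p else 0)
    split_ifs
    · rw [Fam.add_c]
    · rw [add_zero]
  map_smul' := by
    intro f v
    apply Alg.ext
    intro p q
    change (if q = k then (if R.r p k = true then ∑ j, f.e p j * v.c () j else 0) else 0) =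
      (if R.r p q = true then ∑ j, f.e p j * (if q = k then v.c () j else 0) else 0)
    by_cases hq : q = k
    · subst hq
      simp
    · simp [hq]

/-- the projection `A → A e_k` -/
noncomputable def projk (R : Rel V) (K : Type u) [Field K] (k : V) : Alg R K →ₗ[Alg R K] PP R K k where
  toFun f := ⟨fun _ i => f.e i k, fun _ i h => f.e_eq_zero h⟩
  map_add' _ _ := rfl
  map_smul' _ _ := rfl

theorem projk_incl (k : V) (v : PP R K k) : projk R K k (incl R K k v) = v := by
  apply Fam.ext
  intro a i
  change (if k = k then v.c () i else 0) = v.c a i
  rw [if_pos rfl]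

instance (k : V) : Module.Projective (Alg R K) (PP R K k) :=
  Module.Projective.of_split (incl R K k) (projk R K k) (LinearMap.ext fun v => projk_incl k v)

instance projective_finsupp (k : V) (ι : Type u) :
    Module.Projective (Alg R K) (ι →₀ PP R K k) :=
  Module.Projective.of_split (P := ι →₀ PP R K k) (M := ι →₀ Alg R K)
    (Finsupp.mapRange.linearMap (incl R K k))
    (Finsupp.mapRange.linearMap (projk R K k)) (by
      ext s v
      simp [projk_incl])

/-- generator -/
def delta (R : Rel V) (K : Type u) [Field K] (k : V) : PP R K k :=
  ⟨fun _ p => if p = k then 1 else 0, by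
    intro _ p h
    have h' : R.r p k = false := h
    refine if_neg ?_
    rintro rfl
    rw [R.refl] at h'
    exact absurd h' (by decide)⟩

theorem incl_delta (k : V) : incl R K k (delta R K k) = Alg.unit R K k k := by
  apply Alg.ext
  intro p q
  rw [Alg.unit_e]
  change (if q = k then (if p = k then 1 else 0) else 0) = _
  by_cases hq : q = k <;> by_cases hp : p = k <;> simp [hq, hp, R.refl]

theorem incl_unit_smul (k : V) (v : PP R K k) :
    incl R K k (Alg.unit R K k k • v) = v.c () k • Alg.unit R K k k := by
  apply Alg.ext
  intro p q
  rw [Alg.smul_e, Alg.unit_e]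
  change (if q = k then (Alg.unit R K k k • v).c () p else 0) = _
  rw [Fam.unit_smul_c]
  have h1 : (Thin.P R k).D k = true := R.refl _
  by_cases hq : q = k
  · by_cases hp : p = k
    · subst hp hq
      simp [h1, R.refl]
    · simp [hp]
  · simp [hq]

/-- evaluation at the top vertex -/
def evk (R : Rel V) (K : Type u) [Field K] (k : V) : PP R K k →+ K where
  toFun v := v.c () k
  map_zero' := rfl
  map_add' _ _ := rfl

/-- the submodule sequence gives a bound on projective dimensions -/
theorem pd_of_map {A : Type u} [Ring A] {P M : Type u} [AddCommGroup P] [Module A P]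
    [AddCommGroup M] [Module A M] (Φ : P →ₗ[A] M) (t : ℕ) [Module.Projective A P]
    (h1 : HasProjectiveDimensionLT (ModuleCat.of A (LinearMap.ker Φ)) t)
    (h2 : HasProjectiveDimensionLT (ModuleCat.of A (M ⧸ LinearMap.range Φ)) t) :
    HasProjectiveDimensionLT (ModuleCat.of A M) (t + 1) := by
  have hP : HasProjectiveDimensionLT (ModuleCat.of A P) (t + 1) :=
    hasProjectiveDimensionLT_of_ge _ 1 _ (by omega)
  have hr : HasProjectiveDimensionLT (ModuleCat.of A (LinearMap.range Φ)) (t + 1) := by
    have hS := LinearMap.shortExact_shortComplexKer (f := Φ.rangeRestrict)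
      (LinearMap.surjective_rangeRestrict Φ)
    refine hS.hasProjectiveDimensionLT_X₃ t ?_ hP
    have : LinearMap.ker Φ.rangeRestrict = LinearMap.ker Φ := LinearMap.ker_rangeRestrict Φ
    change HasProjectiveDimensionLT (ModuleCat.of A (LinearMap.ker Φ.rangeRestrict)) t
    rw [this]
    exact h1
  let S : ShortComplex (ModuleCat.{u} A) := ModuleCat.shortComplexOfCompEqZero
    (LinearMap.range Φ).subtype (LinearMap.range Φ).mkQ (by
      ext x
      simp)
  have hS : S.ShortExact := by
    apply ModuleCat.shortComplex_shortExact
    · intro x
      constructor
      · intro hx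
        have h3 : x ∈ LinearMap.range Φ := (Submodule.Quotient.mk_eq_zero _).1 hx
        exact ⟨⟨x, h3⟩, rfl⟩
      · rintro ⟨y, rfl⟩
        exact (Submodule.Quotient.mk_eq_zero _).2 y.2
    · exact Submodule.subtype_injective _
    · exact Submodule.mkQ_surjective _
  refine hS.hasProjectiveDimensionLT_X₂ (t + 1) hr ?_
  have := h2
  exact hasProjectiveDimensionLT_of_ge (ModuleCat.of A (M ⧸ LinearMap.range Φ)) t _ (by omega)

theorem pd_aux {n : ℕ} {R : Rel (Fin n)} (hord : ∀ i j, R.r i j = true → j ≤ i) :
    ∀ t ≤ n, ∀ (M : Type u) [AddCommGroup M] [Module (Alg R K) M],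
      (∀ i : Fin n, i.val + t < n → ∀ m : M, Alg.unit R K i i • m = 0) →
      HasProjectiveDimensionLT (ModuleCat.of (Alg R K) M) t := by
  intro t
  induction t with
  | zero =>
    intro _ M _ _ h
    apply Limits.IsZero.hasProjectiveDimensionLT_zero
    have hz : ∀ m : M, m = 0 := by
      intro m
      rw [← one_smul (Alg R K) m, ← Alg.sum_unit, Finset.sum_smul]
      exact Finset.sum_eq_zero fun i _ => h i (by simp) m
    have : Subsingleton M := ⟨fun a b => by rw [hz a, hz b]⟩
    exact ModuleCat.isZero_of_subsingleton _
  | succ t ih =>
    intro ht M _ _ h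
    let k : Fin n := ⟨n - (t + 1), by omega⟩
    have hk : k.val + (t + 1) = n := by
      change n - (t + 1) + (t + 1) = n
      omega
    let _ : Module K M := Module.compHom M (algebraMap K (Alg R K))
    have hM : ∀ (c : K) (m : M), c • m = (algebraMap K (Alg R K) c) • m := fun _ _ => rfl
    have hsm : ∀ (c : K) (b : Alg R K) (m : M), (c • b) • m = c • (b • m) := by
      intro c b m
      rw [hM, smul_smul, Algebra.smul_def]
    have hsm2 : ∀ (c : K) (b : Alg R K) (m : M), b • (c • m) = c • (b • m) := by
      intro c b m
      rw [hM, hM, smul_smul, smul_smul, Algebra.commutes]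
    let W : Submodule K M :=
      { carrier := {m | Alg.unit R K k k • m = m}
        add_mem' := by
          intro a b ha hb
          have ha' : Alg.unit R K k k • a = a := ha
          have hb' : Alg.unit R K k k • b = b := hb
          change Alg.unit R K k k • (a + b) = a + b
          rw [smul_add, ha', hb']
        zero_mem' := smul_zero _
        smul_mem' := by
          intro c m hm
          have hm' : Alg.unit R K k k • m = m := hm
          change Alg.unit R K k k • (c • m) = c • m
          rw [hsm2, hm'] }
    have hW : ∀ m, m ∈ W ↔ Alg.unit R K k k • m = m := fun _ => Iff.rfl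
    let b := Module.Basis.ofVectorSpace K W
    let ι := Module.Basis.ofVectorSpaceIndex K W
    let φ : ι → (PP R K k →ₗ[Alg R K] M) := fun s =>
      (LinearMap.toSpanSingleton (Alg R K) M (b s : M)).comp (incl R K k)
    have hφ : ∀ s v, φ s v = incl R K k v • (b s : M) := fun _ _ => rfl
    let Φ : (ι →₀ PP R K k) →ₗ[Alg R K] M := Finsupp.lsum ℕ φ
    have hΦ : ∀ s v, Φ (Finsupp.single s v) = incl R K k v • (b s : M) := by
      intro s v
      change Finsupp.lsum ℕ φ (Finsupp.single s v) = _
      rw [Finsupp.lsum_single, hφ]
    refine pd_of_map Φ t ?_ ?_
    · refine ih (by omega) _ ?_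
      rintro i hi ⟨w, hw⟩
      have hw' : Φ w = 0 := hw
      apply Subtype.ext
      change Alg.unit R K i i • w = 0
      by_cases hik : i = k
      · subst hik
        have h1 : Φ (Alg.unit R K k k • w) =
            ((Finsupp.linearCombination K b (Finsupp.mapRange.addMonoidHom (evk R K k) w) : W) : M)
            := by
          clear hw hw'
          induction w using Finsupp.induction_linear with
          | zero =>
            rw [smul_zero, map_zero, map_zero, map_zero]
            rfl
          | add x y hx hy =>
            rw [smul_add, map_add, hx, hy, map_add, map_add]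
            rfl
          | single s v =>
            rw [Finsupp.smul_single, hΦ, incl_unit_smul, Finsupp.mapRange.addMonoidHom_apply,
              Finsupp.mapRange_single, Finsupp.linearCombination_single, hsm]
            have h2 : Alg.unit R K k k • (b s : M) = b s := (b s).2
            rw [h2]
            rfl
        rw [map_smul, hw', smul_zero] at h1
        have h2 : Finsupp.linearCombination K b (Finsupp.mapRange.addMonoidHom (evk R K k) w) = 0 :=
          Subtype.ext h1.symm
        have h3 := linearIndependent_iff.1 b.linearIndependent _ h2
        ext s : 1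
        rw [Finsupp.smul_apply, Finsupp.zero_apply]
        apply Fam.ext
        intro a p
        rw [Fam.unit_smul_c]
        have h4 : evk R K k (w s) = 0 := by
          have := DFunLike.congr_fun h3 s
          rwa [Finsupp.mapRange.addMonoidHom_apply, Finsupp.mapRange_apply,
            Finsupp.zero_apply] at this
        split_ifs
        · exact h4
        · rfl
      · have hlt : i.val < k.val := by
          have : i.val ≠ k.val := fun h => hik (Fin.ext h)
          omega
        ext s : 1
        rw [Finsupp.smul_apply, Finsupp.zero_apply]
        apply Fam.ext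
        intro a p
        rw [Fam.unit_smul_c]
        split_ifs with hc
        · obtain ⟨h1, rfl, _⟩ := hc
          have h2 : R.r p k = true := h1
          have := hord _ _ h2
          exact absurd this (not_le.2 hlt)
        · rfl
    · refine ih (by omega) _ ?_
      intro i hi q
      obtain ⟨m, rfl⟩ := Submodule.mkQ_surjective _ q
      rw [← map_smul, Submodule.mkQ_apply, Submodule.Quotient.mk_eq_zero]
      by_cases hik : i = k
      · subst hik
        have hmem : Alg.unit R K k k • m ∈ W := by
          rw [hW, smul_smul, unit_mul_unit _ _ k (R.refl k)]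
        have hle : ∀ w : W, (w : M) ∈ LinearMap.range Φ := by
          intro w
          have hw : w ∈ Submodule.span K (Set.range b) := by
            rw [b.span_eq]; trivial
          induction hw using Submodule.span_induction with
          | mem x hx =>
            obtain ⟨s, rfl⟩ := hx
            refine ⟨Finsupp.single s (delta R K k), ?_⟩
            rw [hΦ, incl_delta]
            exact (b s).2
          | zero => exact Submodule.zero_mem _
          | add x y _ _ hx hy =>
            have : ((x + y : W) : M) = (x : M) + (y : M) := rfl
            rw [this]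
            exact Submodule.add_mem _ hx hy
          | smul c x _ hx =>
            have : ((c • x : W) : M) = (algebraMap K (Alg R K) c) • (x : M) := rfl
            rw [this]
            exact Submodule.smul_mem _ _ hx
        exact hle ⟨_, hmem⟩
      · have hlt : i.val < k.val := by
          have : i.val ≠ k.val := fun h => hik (Fin.ext h)
          omega
        rw [h i (by omega) m]
        exact Submodule.zero_mem _

theorem gldim {n : ℕ} {R : Rel (Fin n)} (hord : ∀ i j, R.r i j = true → j ≤ i)
    (M : ModuleCat.{u} (Alg R K)) : projectiveDimension M ≤ n := by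
  rw [projectiveDimension_le_iff]
  have h := pd_aux (K := K) hord n le_rfl M (by intro i hi; omega)
  exact hasProjectiveDimensionLT_of_ge M n _ (by omega)

end Pool.Agent.P8H62.PC
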