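import Pool.Agent.P8H62.PC.Alg

/-!
Projective and injective thin modules over `Alg R K`.
-/

namespace Pool.Agent.P8H62.PC

universe u

set_option linter.unusedSectionVars false
set_option linter.unusedVariables false

variable {V : Type} [Fintype V] [DecidableEq V] {R : Rel V} {K : Type u} [Field K]

/-- the thin module `A e_x` -/
def Thin.P (R : Rel V) (x : V) : Thin R :=
  ⟨fun i => R.r i x, fun i k j hi hj hik hkj => (R.assoc i k j x hik hkj hj hi).symm⟩

/-- the thin module dual to `e_x A` -/
def Thin.I (R : Rel V) (x : V) : Thin R :=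
  ⟨fun i => R.r x i, fun i k j hi hj hik hkj => R.assoc x i k j hi hik hkj hj⟩

theorem Thin.P_D (x i : V) : (Thin.P R x).D i = R.r i x := rfl
theorem Thin.I_D (x i : V) : (Thin.I R x).D i = R.r x i := rfl

/-- the regular module is the sum of the thin modules `P x` -/
noncomputable def reg (R : Rel V) (K : Type u) [Field K] :
    Alg R K ≃ₗ[Alg R K] Fam (fun j : V => Thin.P R j) K where
  toFun f := ⟨fun j i => f.e i j, fun j i h => f.e_eq_zero h⟩
  invFun v := ⟨fun i j => v.c j i, fun i j h => v.c_eq_zero h⟩
  left_inv _ := rfl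
  right_inv _ := rfl
  map_add' _ _ := rfl
  map_smul' _ _ := rfl

theorem unit_mul_unit (x i j : V) (h : R.r x i = true) :
    Alg.unit R K x x * Alg.unit R K x i = Alg.unit R K x i := by
  rw [Alg.mul_unit x i h]
  rw [Finset.sum_eq_single x]
  · simp [Alg.unit_e, R.refl]
  · intro b _ hb
    simp [Alg.unit_e, hb]
  · simp

section

variable {α : Type} [Fintype α] (x : α → V)

theorem fam_injective : Module.Injective (Alg R K) (Fam (fun a => Thin.I R (x a)) K) := by
  refine ⟨?_⟩
  intro X Y _ _ _ _ f hf g
  let _ : Module K X := Module.compHom X (algebraMap K (Alg R K))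
  let _ : Module K Y := Module.compHom Y (algebraMap K (Alg R K))
  have hX : ∀ (c : K) (m : X), c • m = (algebraMap K (Alg R K) c) • m := fun _ _ => rfl
  have hY : ∀ (c : K) (m : Y), c • m = (algebraMap K (Alg R K) c) • m := fun _ _ => rfl
  have hsm : ∀ (c : K) (b : Alg R K) (m : Y), (c • b) • m = c • (b • m) := by
    intro c b m
    rw [hY, smul_smul, Algebra.smul_def]
  -- the underlying K-linear map of f
  let fK : X →ₗ[K] Y :=
    { toFun := f
      map_add' := f.map_add
      map_smul' := by
        intro c m
        rw [hX, hY, RingHom.id_apply, f.map_smul] }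
  obtain ⟨s, hs⟩ := LinearMap.exists_leftInverse_of_injective fK (LinearMap.ker_eq_bot.2 hf)
  have hs' : ∀ m, s (f m) = m := fun m => LinearMap.congr_fun hs m
  -- the functional
  let lam : α → (X →ₗ[K] K) := fun a =>
    { toFun := fun m => (g m).c a (x a)
      map_add' := by
        intro m m'
        rw [g.map_add]; rfl
      map_smul' := by
        intro c m
        rw [hX, g.map_smul, Algebra.algebraMap_eq_smul_one, Fam.smul_c]
        have h1 : (Thin.I R (x a)).D (x a) = true := R.refl _
        rw [if_pos h1]
        simp [Alg.smul_e, Alg.one_e] }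
  let mu : α → (Y →ₗ[K] K) := fun a => (lam a).comp s
  let h : Y →ₗ[Alg R K] Fam (fun a => Thin.I R (x a)) K :=
    { toFun := fun y => ⟨fun a i => if R.r (x a) i = true then
          mu a (Alg.unit R K (x a) i • y) else 0, by
        intro a i hi
        have hi' : R.r (x a) i = false := hi
        simp [hi']⟩
      map_add' := by
        intro y y'
        apply Fam.ext
        intro a i
        change (if R.r (x a) i = true then mu a (Alg.unit R K (x a) i • (y + y')) else 0) =
          (if R.r (x a) i = true then mu a (Alg.unit R K (x a) i • y) else 0) +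
          (if R.r (x a) i = true then mu a (Alg.unit R K (x a) i • y') else 0)
        split_ifs
        · rw [smul_add, map_add]
        · simp
      map_smul' := by
        intro b y
        apply Fam.ext
        intro a i
        change (if R.r (x a) i = true then mu a (Alg.unit R K (x a) i • (b • y)) else 0) =
          (if R.r (x a) i = true then ∑ j, b.e i j *
            (if R.r (x a) j = true then mu a (Alg.unit R K (x a) j • y) else 0) else 0)
        by_cases hi : R.r (x a) i = true
        · rw [if_pos hi, if_pos hi, smul_smul, Alg.unit_mul _ _ hi, Finset.sum_smul, map_sum]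
          refine Finset.sum_congr rfl fun j _ => ?_
          rw [hsm, map_smul, smul_eq_mul]
          by_cases hj : R.r (x a) j = true
          · rw [if_pos hj]
          · rw [if_neg hj]
            have : Alg.unit R K (x a) j = 0 := by
              apply Alg.ext
              intro p q
              rw [Alg.unit_e, if_neg]
              · rfl
              · rintro ⟨_, _, h⟩
                exact hj h
            rw [this, zero_smul, map_zero, mul_zero]
        · rw [if_neg hi, if_neg hi] }
  refine ⟨h, ?_⟩
  intro m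
  apply Fam.ext
  intro a i
  change (if R.r (x a) i = true then mu a (Alg.unit R K (x a) i • f m) else 0) = (g m).c a i
  by_cases hi : R.r (x a) i = true
  · rw [if_pos hi]
    change (g (s (Alg.unit R K (x a) i • f m))).c a (x a) = _
    rw [← f.map_smul, hs', g.map_smul, Fam.unit_smul_c]
    have h1 : (Thin.I R (x a)).D (x a) = true := R.refl _
    rw [if_pos ⟨h1, rfl, hi⟩]
  · rw [if_neg hi]
    exact ((g m).c_eq_zero (show (Thin.I R (x a)).D i = false from Bool.eq_false_iff.2 hi)).symm

theorem hom_eq_zero {M : Type u} [AddCommGroup M] [Module (Alg R K) M]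
    (h : ∀ a, ∀ m : M, Alg.unit R K (x a) (x a) • m = 0)
    (φ : M →ₗ[Alg R K] Fam (fun a => Thin.I R (x a)) K) : φ = 0 := by
  ext m
  apply Fam.ext
  intro a i
  rw [LinearMap.zero_apply, Fam.zero_c]
  by_cases hi : R.r (x a) i = true
  · have h1 : (Alg.unit R K (x a) i • φ m).c a (x a) = (φ m).c a i := by
      rw [Fam.unit_smul_c]
      have h1 : (Thin.I R (x a)).D (x a) = true := R.refl _
      rw [if_pos ⟨h1, rfl, hi⟩]
    rw [← h1, ← φ.map_smul, ← unit_mul_unit (x a) i i hi, ← smul_smul, h, map_zero]
    rfl
  · exact (φ m).c_eq_zero (show (Thin.I R (x a)).D i = false from Bool.eq_false_iff.2 hi)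

theorem unit_smul_eq_zero {M : Type u} [AddCommGroup M] [Module (Alg R K) M] (z : V)
    (ι : M →ₗ[Alg R K] Fam (fun a => Thin.I R (x a)) K) (hι : Function.Injective ι)
    (hz : ∀ a, R.r (x a) z = false) (m : M) : Alg.unit R K z z • m = 0 := by
  apply hι
  rw [map_zero, ι.map_smul]
  apply Fam.ext
  intro a p
  rw [Fam.unit_smul_c, if_neg]
  · rfl
  · rintro ⟨h1, rfl, _⟩
    have h2 : R.r (x a) p = true := h1
    rw [hz a] at h2
    exact absurd h2 (by decide)

/-- a nonzero submodule contains a nonzero element of the socle -/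
theorem exists_socle (ht : V → ℕ) (hord : ∀ i j, R.r i j = true → i = j ∨ ht j < ht i)
    (N : Submodule (Alg R K) (Fam (fun a => Thin.I R (x a)) K)) (hN : N ≠ ⊥) :
    ∃ m ∈ N, m ≠ 0 ∧ ∀ a p, m.c a p ≠ 0 → p = x a := by
  classical
  obtain ⟨n, hn, hn0⟩ := (Submodule.ne_bot_iff N).1 hN
  rw [Fam.ne_zero_iff] at hn0
  obtain ⟨a₀, i₀, h₀⟩ := hn0
  let S : Finset (α × V) := Finset.univ.filter (fun t => n.c t.1 t.2 ≠ 0)
  have hS : S.Nonempty := ⟨(a₀, i₀), by simp [S, h₀]⟩
  obtain ⟨⟨a, i⟩, hai, hmax⟩ := S.exists_max_image (fun t => ht (x t.1)) hS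
  have hai' : n.c a i ≠ 0 := by simpa [S] using hai
  have hri : R.r (x a) i = true := by
    by_contra hc
    exact hai' (n.c_eq_zero (show (Thin.I R (x a)).D i = false from Bool.eq_false_iff.2 hc))
  refine ⟨Alg.unit R K (x a) i • n, N.smul_mem _ hn, ?_, ?_⟩
  · rw [Fam.ne_zero_iff]
    refine ⟨a, x a, ?_⟩
    rw [Fam.unit_smul_c]
    have h1 : (Thin.I R (x a)).D (x a) = true := R.refl _
    rw [if_pos ⟨h1, rfl, hri⟩]
    exact hai'
  · intro a' p hp
    rw [Fam.unit_smul_c] at hp
    have hc : (Thin.I R (x a')).D p = true ∧ p = x a ∧ R.r (x a) i = true := by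
      by_contra hc
      rw [if_neg hc] at hp
      exact hp rfl
    rw [if_pos hc] at hp
    obtain ⟨h1, rfl, _⟩ := hc
    have h2 : R.r (x a') (x a) = true := h1
    have h3 := hmax (a', i) (by simp [S, hp])
    rcases hord _ _ h2 with h4 | h4
    · exact h4.symm
    · exact absurd h3 (not_le.2 h4)

end

end Pool.Agent.P8H62.PC
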