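import Pool.Agent.P8H62.PC.NotAR

/-!
Assembly of the counterexample.
-/

namespace Pool.Agent.P8H62.PC

universe u

open CategoryTheory

theorem nontrivial_fam {V : Type} [Fintype V] [DecidableEq V] {R : Rel V} {K : Type u} [Field K]
    {α : Type} [DecidableEq α] (x : α → V) (a₀ : α) : Nontrivial (Fam (II R x) K) := by
  let v : Fam (II R x) K := ⟨fun a p => if a = a₀ ∧ p = x a₀ then 1 else 0, by
    intro a p h
    refine if_neg ?_
    rintro ⟨rfl, rfl⟩
    have h' : R.r (x a) (x a) = false := h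
    rw [R.refl] at h'
    exact absurd h' (by decide)⟩
  refine ⟨v, 0, ?_⟩
  rw [Fam.ne_zero_iff]
  refine ⟨a₀, x a₀, ?_⟩
  change (if a₀ = a₀ ∧ x a₀ = x a₀ then (1 : K) else 0) ≠ 0
  simp

theorem subsingleton_fam {V : Type} [Fintype V] [DecidableEq V] {R : Rel V} {K : Type u} [Field K]
    {α : Type} [IsEmpty α] (x : α → V) : Subsingleton (Fam (II R x) K) :=
  ⟨fun v w => Fam.ext fun a _ => isEmptyElim a⟩

theorem nontrivial_data (K : Type u) [Field K] : ∀ i ≤ 3, Nontrivial ((data.cores K).I i)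
  | 0, _ => nontrivial_fam (xx 0) ⟨0, by decide⟩
  | 1, _ => nontrivial_fam (xx 1) ⟨0, by decide⟩
  | 2, _ => nontrivial_fam (xx 2) ⟨0, by decide⟩
  | 3, _ => nontrivial_fam (xx 3) ⟨0, by decide⟩
  | (n + 4), h => absurd h (by omega)

theorem subsingleton_data (K : Type u) [Field K] : ∀ i, 3 < i → Subsingleton ((data.cores K).I i)
  | 0, h => absurd h (by omega)
  | 1, h => absurd h (by omega)
  | 2, h => absurd h (by omega)
  | 3, h => absurd h (by omega)
  | (n + 4), _ =>
    haveI : IsEmpty (Fin (num (n + 4))) := Fin.isEmpty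
    subsingleton_fam (xx (n + 4))

theorem main (K : Type u) [Field K] :
    ∃ (A : Type u) (_ : Ring A) (_ : Algebra K A), Module.Finite K A ∧
      (∃ n : ℕ, ∀ M : ModuleCat.{u} A, projectiveDimension M ≤ n) ∧
      ∃ (C : MinInjCores A) (d : ℕ),
        (∀ i, d < i → Subsingleton (C.I i)) ∧
        (∀ i ≤ d, Nontrivial (C.I i) ∧ IsPure A (C.I i) ∧ grade A (C.I i) = i) ∧
        ∃ i : ℕ, ¬ projectiveDimension (ModuleCat.of A (C.I i)) ≤ i := by
  refine ⟨Alg rel K, inferInstance, inferInstance, ?_, ⟨10, fun M => gldim data.hord M⟩,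
    data.cores K, 3, subsingleton_data K, ?_, 1, not_pd_I1 K⟩
  · exact (inferInstance : Module.Finite K (Alg rel K))
  · intro i hi
    have := nontrivial_data K i hi
    exact ⟨this, CoresData.pure_and_grade pureCond i⟩

end Pool.Agent.P8H62.PC
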