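import Pool.Agent.P8H62.PC.Data
import Pool.Agent.P8H62.PC.Gl

/-!
The first term of the coresolution has projective dimension at least two.
-/

namespace Pool.Agent.P8H62.PC

universe u

set_option linter.unusedSectionVars false
set_option linter.unusedVariables false

open CategoryTheory

section generic

variable {V : Type} [Fintype V] [DecidableEq V] {R : Rel V} {K : Type u} [Field K]
variable {α β γ : Type} [Fintype α] [Fintype β] [Fintype γ]
  {T : α → Thin R} {T' : β → Thin R} {T'' : γ → Thin R}

theorem map_injective_of [DecidableEq β] {C' : γ → β → ℤ} (hC' : Fam.Compat T' T'' C')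
    (H' : V → β → γ → ℤ)
    (hH : ∀ i b b', (T' b).D i = true → (T' b').D i = true →
      ∑ c, (if (T'' c).D i = true then H' i b c * C' c b' else 0) = if b = b' then 1 else 0) :
    Function.Injective (Fam.map (K := K) C' hC') := by
  let T₀ : Fin 0 → Thin R := fun a => a.elim0
  let C₀ : β → Fin 0 → ℤ := fun _ a => a.elim0
  have hC₀ : Fam.Compat T₀ T' C₀ := fun _ a => a.elim0
  have hz : Fam.CompZero T₀ T' T'' C₀ C' := fun _ a => a.elim0
  have h := Fam.exact_of_homotopy (K := K) hC₀ hC' hz (fun _ a => a.elim0) H' (by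
    intro i b b' hb hb'
    rw [Finset.univ_eq_empty, Finset.sum_empty, zero_add]
    exact hH i b b' hb hb')
  rw [← LinearMap.ker_eq_bot, ← h]
  rw [eq_bot_iff]
  rintro _ ⟨v, rfl⟩
  have : v = 0 := Fam.ext (fun a => a.elim0)
  rw [this, map_zero]
  exact Submodule.zero_mem _

theorem map_surjective_of [DecidableEq β] {C : β → α → ℤ} (hC : Fam.Compat T T' C)
    (H : V → α → β → ℤ)
    (hH : ∀ i b b', (T' b).D i = true → (T' b').D i = true →
      ∑ a, (if (T a).D i = true then C b a * H i a b' else 0) = if b = b' then 1 else 0) :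
    Function.Surjective (Fam.map (K := K) C hC) := by
  let T₀ : Fin 0 → Thin R := fun a => a.elim0
  let C₀ : Fin 0 → β → ℤ := fun a => a.elim0
  have hC₀ : Fam.Compat T' T₀ C₀ := fun a => a.elim0
  have hz : Fam.CompZero T T' T₀ C C₀ := fun a => a.elim0
  have h := Fam.exact_of_homotopy (K := K) hC hC₀ hz H (fun _ _ a => a.elim0) (by
    intro i b b' hb hb'
    refine Eq.trans (congrArg₂ (· + ·) rfl (Finset.sum_of_isEmpty _)) ?_
    exact (add_zero _).trans (hH i b b' hb hb'))
  rw [← LinearMap.range_eq_top, h, eq_top_iff]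
  intro v _
  exact Fam.ext (fun a => a.elim0)

end generic

/-- the module `Ω` with top `e₆, e₇` and socle `e₈` -/
def omegaT : Thin rel := ⟨fun i => decide (6 ≤ i.val ∧ i.val ≤ 8), by decide +kernel⟩

def TOm : Fin 1 → Thin rel := fun _ => omegaT
def TP0 : Fin 1 → Thin rel := fun _ => Thin.P rel 0
def TI5 : Fin 1 → Thin rel := fun _ => Thin.I rel 5
def TP67 : Fin 2 → Thin rel := fun a => Thin.P rel (![6, 7] a)

def one11 : Fin 1 → Fin 1 → ℤ := fun _ _ => 1
def one12 : Fin 1 → Fin 2 → ℤ := fun _ _ => 1

theorem c1 : Fam.Compat TOm TP0 one11 := by decide +kernel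
theorem c2 : Fam.Compat TP0 TI5 one11 := by decide +kernel
theorem c3 : Fam.Compat TP67 TOm one12 := by decide +kernel

variable (K : Type u) [Field K]

theorem ses1_inj : Function.Injective (Fam.map (K := K) one11 c1) :=
  map_injective_of c1 (fun _ _ _ => 1) (by decide +kernel)

theorem ses1_surj : Function.Surjective (Fam.map (K := K) one11 c2) :=
  map_surjective_of c2 (fun _ _ _ => 1) (by decide +kernel)

theorem ses1_exact : LinearMap.range (Fam.map (K := K) one11 c1) =
    LinearMap.ker (Fam.map (K := K) one11 c2) :=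
  Fam.exact_of_homotopy c1 c2 (by decide +kernel) (fun _ _ _ => 1) (fun _ _ _ => 1)
    (by decide +kernel)

theorem cover_surj : Function.Surjective (Fam.map (K := K) one12 c3) :=
  map_surjective_of c3 (fun i a _ => if (i = 7 ∧ a = 1) ∨ (i ≠ 7 ∧ a = 0) then 1 else 0)
    (by decide +kernel)

/-- basis vectors of `Ω` -/
def ww (k : Fin 10) : Fam TOm K :=
  ⟨fun _ p => if p = k ∧ omegaT.D k = true then 1 else 0, by
    intro _ p h
    refine if_neg ?_
    rintro ⟨rfl, h'⟩
    have h2 : omegaT.D p = false := h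
    rw [h2] at h'
    exact absurd h' (by decide)⟩

theorem ww_c (k : Fin 10) (a : Fin 1) (p : Fin 10) :
    (ww K k).c a p = if p = k ∧ omegaT.D k = true then 1 else 0 := rfl

theorem not_projective_omega : ¬ Module.Projective (Alg rel K) (Fam TOm K) := by
  intro hP
  obtain ⟨s, hs⟩ := Module.projective_lifting_property (Fam.map (K := K) one12 c3)
    (LinearMap.id : Fam TOm K →ₗ[Alg rel K] Fam TOm K) (cover_surj K)
  have hs' : ∀ w, Fam.map (K := K) one12 c3 (s w) = w := fun w => LinearMap.congr_fun hs w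
  have h68 : Alg.unit rel K 8 6 • ww K 6 = ww K 8 := by
    apply Fam.ext
    intro a p
    rw [Fam.unit_smul_c, ww_c, ww_c]
    have h1 : rel.r 8 6 = true := by decide +kernel
    have h2 : omegaT.D 6 = true := by decide +kernel
    have h3 : omegaT.D 8 = true := by decide +kernel
    by_cases hp : p = 8
    · subst hp
      have h4 : (TOm a).D 8 = true := h3
      rw [if_pos ⟨h4, rfl, h1⟩, if_pos ⟨rfl, h2⟩, if_pos ⟨rfl, h3⟩]
    · rw [if_neg (fun h => hp h.2.1), if_neg (fun h => hp h.1)]
  have h78 : Alg.unit rel K 8 7 • ww K 7 = ww K 8 := by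
    apply Fam.ext
    intro a p
    rw [Fam.unit_smul_c, ww_c, ww_c]
    have h1 : rel.r 8 7 = true := by decide +kernel
    have h2 : omegaT.D 7 = true := by decide +kernel
    have h3 : omegaT.D 8 = true := by decide +kernel
    by_cases hp : p = 8
    · subst hp
      have h4 : (TOm a).D 8 = true := h3
      rw [if_pos ⟨h4, rfl, h1⟩, if_pos ⟨rfl, h2⟩, if_pos ⟨rfl, h3⟩]
    · rw [if_neg (fun h => hp h.2.1), if_neg (fun h => hp h.1)]
  have h1 : Alg.unit rel K 8 6 • s (ww K 6) = Alg.unit rel K 8 7 • s (ww K 7) := by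
    rw [← map_smul, ← map_smul, h68, h78]
  have h2 : (Alg.unit rel K 8 6 • s (ww K 6)).c 0 8 = (Alg.unit rel K 8 7 • s (ww K 7)).c 0 8 :=
    congrArg (fun v : Fam TP67 K => v.c 0 8) h1
  rw [Fam.unit_smul_c, Fam.unit_smul_c] at h2
  have hD : (TP67 0).D 8 = true := by decide +kernel
  have hr6 : rel.r 8 6 = true := by decide +kernel
  have hr7 : rel.r 8 7 = true := by decide +kernel
  rw [if_pos ⟨hD, rfl, hr6⟩, if_pos ⟨hD, rfl, hr7⟩] at h2
  have h3 : (s (ww K 7)).c 0 7 = 0 := Fam.c_eq_zero _ (by decide +kernel)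
  rw [h3] at h2
  have h4 : (Fam.map (K := K) one12 c3 (s (ww K 6))).c 0 6 = 1 := by
    rw [hs', ww_c, if_pos]
    exact ⟨rfl, by decide +kernel⟩
  rw [Fam.map_c, if_pos (by decide +kernel), Fin.sum_univ_two, h2] at h4
  have h5 : (s (ww K 6)).c 1 6 = 0 := Fam.c_eq_zero _ (by decide +kernel)
  rw [h5] at h4
  simp at h4

theorem projective_P0 : Module.Projective (Alg rel K) (Fam TP0 K) := by
  refine Module.Projective.of_split (P := Fam TP0 K) (M := PP rel K 0)
    { toFun := fun v => ⟨fun _ i => v.c 0 i, fun _ i h => v.c_eq_zero h⟩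
      map_add' := fun _ _ => rfl
      map_smul' := fun _ _ => rfl }
    { toFun := fun v => ⟨fun _ i => v.c () i, fun _ i h => v.c_eq_zero h⟩
      map_add' := fun _ _ => rfl
      map_smul' := fun _ _ => rfl } ?_
  ext v
  apply Fam.ext
  intro a i
  rw [Subsingleton.elim a 0]
  rfl

theorem not_pd_I5 : ¬ HasProjectiveDimensionLT (ModuleCat.of (Alg rel K) (Fam TI5 K)) 2 := by
  intro h
  have hcomp : (Fam.map (K := K) one11 c2).comp (Fam.map (K := K) one11 c1) = 0 := by
    ext x
    have : Fam.map (K := K) one11 c1 x ∈ LinearMap.ker (Fam.map (K := K) one11 c2) := by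
      rw [← ses1_exact]; exact ⟨x, rfl⟩
    exact this
  let S : ShortComplex (ModuleCat.{u} (Alg rel K)) :=
    ModuleCat.shortComplexOfCompEqZero (Fam.map (K := K) one11 c1) (Fam.map (K := K) one11 c2) hcomp
  have hS : S.ShortExact := by
    apply ModuleCat.shortComplex_shortExact
    · intro x
      constructor
      · intro hx
        have : x ∈ LinearMap.ker (Fam.map (K := K) one11 c2) := hx
        rw [← ses1_exact] at this
        exact this
      · rintro ⟨y, rfl⟩
        have : Fam.map (K := K) one11 c1 y ∈ LinearMap.ker (Fam.map (K := K) one11 c2) := by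
          rw [← ses1_exact]; exact ⟨y, rfl⟩
        exact this
    · exact ses1_inj K
    · exact ses1_surj K
  have hP0 := projective_P0 K
  have hP : Projective S.X₂ := by
    have := hP0
    exact ModuleCat.projective_of_categoryTheory_projective (ModuleCat.of (Alg rel K) (Fam TP0 K))
  have h1 := (hS.hasProjectiveDimensionLT_X₃_iff 0 hP).1 h
  have h2 : Projective (ModuleCat.of (Alg rel K) (Fam TOm K)) :=
    projective_iff_hasProjectiveDimensionLT_one.2 h1
  exact not_projective_omega K
    ((IsProjective.iff_projective (Fam TOm K)).2 h2)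

def inM : Fin (num 1) → Fin 1 → ℤ := fun b _ => if b.val = 6 then 1 else 0
def outM : Fin 1 → Fin (num 1) → ℤ := fun _ b => if b.val = 6 then 1 else 0

theorem c4 : Fam.Compat TI5 (II rel (xx 1)) inM := by decide +kernel
theorem c5 : Fam.Compat (II rel (xx 1)) TI5 outM := by decide +kernel

theorem out_in (v : Fam TI5 K) :
    Fam.map (K := K) outM c5 (Fam.map (K := K) inM c4 v) = v := by
  apply Fam.ext
  intro b i
  rw [Fam.map_c]
  by_cases hb : (TI5 b).D i = true
  · rw [if_pos hb, Finset.sum_eq_single (⟨6, by decide⟩ : Fin (num 1))]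
    · rw [Fam.map_c]
      have h1 : (II rel (xx 1) ⟨6, by decide⟩).D i = true := hb
      rw [if_pos h1]
      rw [Subsingleton.elim b 0]
      simp [inM, outM]
    · intro a _ ha
      have : a.val ≠ 6 := fun h => ha (Fin.ext h)
      simp [outM, this]
    · simp
  · rw [if_neg hb, Fam.c_eq_zero _ (Bool.eq_false_iff.2 hb)]

theorem not_pd_I1 : ¬ projectiveDimension
    (ModuleCat.of (Alg rel K) ((data.cores K).I 1)) ≤ (1 : ℕ) := by
  rw [projectiveDimension_le_iff]
  intro h
  apply not_pd_I5 K
  let ret : Retract (ModuleCat.of (Alg rel K) (Fam TI5 K))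
      (ModuleCat.of (Alg rel K) (Fam (II rel (xx 1)) K)) :=
    { i := ModuleCat.ofHom (Fam.map (K := K) inM c4)
      r := ModuleCat.ofHom (Fam.map (K := K) outM c5)
      retract := by
        ext v
        exact out_in K v }
  have h' : HasProjectiveDimensionLT (ModuleCat.of (Alg rel K) (Fam (II rel (xx 1)) K)) 2 := h
  exact ret.hasProjectiveDimensionLT 2

end Pool.Agent.P8H62.PC
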